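import Pool.Agent.Q181.LW.Size
import Pool.Agent.Q181.TO.Vec

set_option autoImplicit false
set_option linter.unusedSectionVars false

/-! Matrices with a bounded inverse of norm at most `3 / √2` plus an exponentially small number have
no long tripods. -/

namespace Pool.Agent.Q181.LW

open TH57.Thr TH6.LF Matrix Pool.Agent.Q181.TO

theorem tent_sum (h : ℕ) :
    3 * ∑ j ∈ Finset.range (2 * h + 1), ((min j (2 * h - j) : ℕ) : ℝ) ^ 2
      = 2 * (h : ℝ) ^ 3 + h := by
  have h1 : 2 * h + 1 = h + (h + 1) := by ring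
  rw [h1, Finset.sum_range_add]
  have e1 : ∑ j ∈ Finset.range h, ((min j (2 * h - j) : ℕ) : ℝ) ^ 2
      = ∑ j ∈ Finset.range h, (j : ℝ) ^ 2 := by
    refine Finset.sum_congr rfl fun j hj => ?_
    have := Finset.mem_range.1 hj
    rw [min_eq_left (by omega)]
  have e2 : ∑ j ∈ Finset.range (h + 1), ((min (h + j) (2 * h - (h + j)) : ℕ) : ℝ) ^ 2
      = ∑ j ∈ Finset.range (h + 1), (j : ℝ) ^ 2 := by
    rw [← Finset.sum_range_reflect (fun j : ℕ => (j : ℝ) ^ 2)]
    refine Finset.sum_congr rfl fun j hj => ?_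
    have := Finset.mem_range.1 hj
    rw [min_eq_right (by omega)]
    congr 2
    omega
  rw [e1, e2]
  have e3 : ∀ n : ℕ, 6 * ∑ j ∈ Finset.range (n + 1), (j : ℝ) ^ 2
      = n * (n + 1) * (2 * n + 1) := by
    intro n
    induction n with
    | zero => simp
    | succ n ih =>
      rw [Finset.sum_range_succ, mul_add, ih]
      push_cast
      ring
  have e4 := e3 h
  rw [Finset.sum_range_succ] at e4 ⊢
  linarith

variable {G : Type} [Group G] {ι κ : Type} [Fintype ι] [Fintype κ] [DecidableEq ι] [DecidableEq κ]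

/-- **Bounded inverse.** -/
theorem no_tri_inv (A : Matrix ι κ (MonoidAlgebra ℤ G)) (t δ : ℝ) (ht0 : 0 < t)
    (ht : t ^ 2 = 1 / 2) (hδ0 : 0 ≤ δ) (hA : NormLE A (3 * t + δ)) {N : ℕ}
    {a : Fin 3 → ℕ → Vx G ι κ} {o : Vx G ι κ} (hT : TriData (wt A) N a o)
    (hδ : δ ≤ (1 / 2) ^ (N + 4)) (D : ℝ)
    (hB : ∀ x : ι → MonoidAlgebra ℝ G, normSq x ≤ D * normSq (x ᵥ* toReal A))
    (h : ℕ) (hh : 1 ≤ h) (hN : 4 * h + 27 ≤ N) : 2 * (h : ℝ) ^ 2 + 1 ≤ 6 * D := by
  classical
  have hI := isoArm_of A t δ ht0 ht hδ0 hA hT hδ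
  obtain ⟨e, he3, he4, he⟩ : ∃ e, 3 ≤ e ∧ e ≤ 4 ∧ ∀ j, e + 2 * j ≤ N →
      (a 0 (e + 2 * j)).isLeft = true := by
    have hs := side_arm (wt A) hT (fun v => v.isLeft) (wt_side A) 0
    rcases hol : o.isLeft with _ | _
    · refine ⟨3, le_rfl, by omega, fun j hj => ?_⟩
      have h1 := hs (3 + 2 * j) hj
      simp only [hol] at h1
      have h2 : (3 + 2 * j) % 2 = 1 := by omega
      rw [h1, h2]; rfl
    · refine ⟨4, by omega, le_rfl, fun j hj => ?_⟩
      have h1 := hs (4 + 2 * j) hj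
      simp only [hol] at h1
      have h2 : (4 + 2 * j) % 2 = 0 := by omega
      rw [h1, h2]; rfl
  have hadj : ∀ j, j < N → wt A (a 0 j) (a 0 (j + 1)) ≠ 0 := by
    intro j hj h
    have h1 := hT.hW1 0 j hj
    rw [h, abs_zero] at h1
    norm_num at h1
  have hrow : ∀ j : Fin (2 * h + 1), ∃ p : G × ι, a 0 (e + 2 * j) = Sum.inl p := by
    intro j
    have h1 := he j (by omega)
    rcases h2 : a 0 (e + 2 * (j : ℕ)) with p | q
    · exact ⟨p, rfl⟩
    · rw [h2] at h1
      exact absurd h1 (by simp)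
  have hcol : ∀ j : Fin (2 * h), ∃ q : G × κ, a 0 (e + 2 * j + 1) = Sum.inr q := by
    intro j
    have h1 := he j (by omega)
    have h3 := wt_side A _ _ (hadj (e + 2 * j) (by omega))
    rcases h2 : a 0 (e + 2 * (j : ℕ) + 1) with p | q
    · rw [h1, h2] at h3
      exact absurd rfl h3
    · exact ⟨q, rfl⟩
  choose p hp using hrow
  choose q hq using hcol
  have hne : ∀ j l, j ≤ N → l ≤ N → a 0 j = a 0 l → j = l := by
    intro j l hj hl h
    rcases hT.hinj 0 0 j l hj hl h with h1 | h1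
    · omega
    · exact h1.2
  have hpinj : Function.Injective p := by
    intro j l hjl
    have h1 : a 0 (e + 2 * (j : ℕ)) = a 0 (e + 2 * (l : ℕ)) := by rw [hp, hp, hjl]
    have h2 := hne _ _ (by omega) (by omega) h1
    exact Fin.ext (by omega)
  have hqinj : Function.Injective q := by
    intro j l hjl
    have h1 : a 0 (e + 2 * (j : ℕ) + 1) = a 0 (e + 2 * (l : ℕ) + 1) := by rw [hq, hq, hjl]
    have h2 := hne _ _ (by omega) (by omega) h1
    exact Fin.ext (by omega)
  set w : ℕ → ℝ := fun k => wt A (a 0 k) (a 0 (k + 1)) with hw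
  have hw1 : ∀ k, k + 2 ≤ N → w k * (sg w k * sg w (k + 1)) = 1 := by
    intro k hk
    rw [sg_step]
    exact weight_one A t δ ht0 ht hδ0 hA hT hδ 0 k hk
  have hwa : ∀ k, k + 2 ≤ N → w k * sg w k = sg w (k + 1) := by
    intro k hk
    have h1 := hw1 k hk
    have h2 := sg_sq w (k + 1)
    calc w k * sg w k = w k * sg w k * (sg w (k + 1) * sg w (k + 1)) := by rw [h2, mul_one]
      _ = (w k * (sg w k * sg w (k + 1))) * sg w (k + 1) := by ring
      _ = sg w (k + 1) := by rw [h1, one_mul]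
  have hwb : ∀ k, k + 2 ≤ N → w k * sg w (k + 1) = sg w k := by
    intro k hk
    have h1 := hw1 k hk
    have h2 := sg_sq w k
    calc w k * sg w (k + 1) = w k * sg w (k + 1) * (sg w k * sg w k) := by rw [h2, mul_one]
      _ = (w k * (sg w k * sg w (k + 1))) * sg w k := by ring
      _ = sg w k := by rw [h1, one_mul]
  -- the vector
  let c : ℕ → ℝ := fun j => ((min j (2 * h - j) : ℕ) : ℝ)
  let val : ℕ → ℝ := fun j => (-1) ^ j * sg w (e + 2 * j) * c j
  let f : G × ι → ℝ := fun v => ∑ j : Fin (2 * h + 1), if p j = v then val j else 0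
  let P : Finset (G × ι) := Finset.univ.image p
  let Q : Finset (G × κ) := Finset.univ.image q
  have hfp : ∀ j, f (p j) = val j := by
    intro j
    simp only [f]
    rw [Finset.sum_eq_single j]
    · simp
    · intro l _ hl
      rw [if_neg fun h => hl (hpinj h)]
    · simp
  have hfP : ∀ v, v ∉ P → f v = 0 := by
    intro v hv
    simp only [f]
    refine Finset.sum_eq_zero fun j _ => ?_
    rw [if_neg]
    intro h
    exact hv (Finset.mem_image.2 ⟨j, Finset.mem_univ _, h⟩)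
  have hsumP : ∀ F : G × ι → ℝ, ∑ v ∈ P, F v = ∑ j, F (p j) := fun F =>
    Finset.sum_image fun x _ y _ h => hpinj h
  have hsumQ : ∀ F : G × κ → ℝ, ∑ v ∈ Q, F v = ∑ j, F (q j) := fun F =>
    Finset.sum_image fun x _ y _ h => hqinj h
  let g : G × κ → ℝ := fun v => ∑ j : Fin (2 * h + 1), wt A (Sum.inl (p j)) (Sum.inr v) * val j
  have hcoef : ∀ (l : κ) (k : G), ((rv P f ᵥ* toReal A) l).coeff k = g (k, l) := by
    intro l k
    rw [coeff_rv_mul, hsumP]
    refine Finset.sum_congr rfl fun j _ => ?_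
    rw [hfp]
    rfl
  have hgQ : ∀ v, v ∉ Q → g v = 0 := by
    intro v hv
    refine Finset.sum_eq_zero fun j _ => ?_
    by_cases h0 : wt A (Sum.inl (p j)) (Sum.inr v) = 0
    · rw [h0, zero_mul]
    · rcases Nat.eq_zero_or_pos (j : ℕ) with hj | hj
      · have : c (j : ℕ) = 0 := by simp [c, hj]
        simp only [val, this, mul_zero]
      · rcases Nat.lt_or_ge (j : ℕ) (2 * h) with hj2 | hj2
        · exfalso
          rw [← hp] at h0
          rcases hI 0 (e + 2 * j) (by omega) (by omega) _ h0 with h1 | h1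
          · have h2 : e + 2 * (j : ℕ) - 1 = e + 2 * ((j : ℕ) - 1) + 1 := by omega
            rw [h2] at h1
            have h3 := hq ⟨(j : ℕ) - 1, by omega⟩
            rw [← h1] at h3
            exact hv (Finset.mem_image.2 ⟨_, Finset.mem_univ _, (Sum.inr_injective h3).symm⟩)
          · have h3 := hq ⟨(j : ℕ), hj2⟩
            rw [← h1] at h3
            exact hv (Finset.mem_image.2 ⟨_, Finset.mem_univ _, (Sum.inr_injective h3).symm⟩)
        · have hj3 : (j : ℕ) = 2 * h := by have := j.2; omega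
          have : c (j : ℕ) = 0 := by simp [c, hj3]
          simp only [val, this, mul_zero]
  have hz : rv P f ᵥ* toReal A = rv Q g := by
    funext l
    ext k
    rw [hcoef, coeff_rv Q g hgQ]
  have hgq : ∀ j : Fin (2 * h), g (q j) ^ 2 ≤ 1 := by
    intro j
    have hj := j.2
    have h1 : g (q j) = wt A (Sum.inl (p ⟨j, by omega⟩)) (Sum.inr (q j)) * val j
        + wt A (Sum.inl (p ⟨j + 1, by omega⟩)) (Sum.inr (q j)) * val (j + 1) := by
      simp only [g]
      rw [Finset.sum_eq_add (⟨j, by omega⟩ : Fin (2 * h + 1)) ⟨(j : ℕ) + 1, by omega⟩]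
      · intro h; have := congrArg Fin.val h; simp at this
      · rintro l - ⟨h1, h2⟩
        have h3 : (l : ℕ) ≠ j := fun h => h1 (Fin.ext h)
        have h4 : (l : ℕ) ≠ j + 1 := fun h => h2 (Fin.ext h)
        rw [← hp, ← hq, hT.hW0 0 _ _ (by omega) (by omega) (by omega) (by omega), zero_mul]
      · intro h; exact absurd (Finset.mem_univ _) h
      · intro h; exact absurd (Finset.mem_univ _) h
    rw [← hp, ← hp, ← hq] at h1
    have h2 : wt A (a 0 (e + 2 * (j : ℕ))) (a 0 (e + 2 * (j : ℕ) + 1)) = w (e + 2 * j) := rfl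
    have h3 : wt A (a 0 (e + 2 * ((j : ℕ) + 1))) (a 0 (e + 2 * (j : ℕ) + 1))
        = w (e + 2 * j + 1) := by
      rw [wt_symm, show e + 2 * ((j : ℕ) + 1) = e + 2 * j + 1 + 1 by ring]
    rw [h2, h3] at h1
    have h4 := hwa (e + 2 * j) (by omega)
    have h5 := hwb (e + 2 * j + 1) (by omega)
    have h6 : g (q j) = (-1) ^ (j : ℕ) * sg w (e + 2 * j + 1) * (c j - c (j + 1)) := by
      rw [h1]
      simp only [val]
      have h7 : e + 2 * ((j : ℕ) + 1) = e + 2 * j + 1 + 1 := by ring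
      rw [h7, pow_succ]
      linear_combination ((-1) ^ (j : ℕ) * c j) * h4 - ((-1) ^ (j : ℕ) * c (j + 1)) * h5
    rw [h6, mul_pow, mul_pow, ← pow_mul, mul_comm (j : ℕ) 2, pow_mul, sq (sg w _), sg_sq]
    norm_num
    rcases Nat.lt_or_ge (j : ℕ) h with h7 | h7
    · have e1 : c j = j := by
        simp only [c]; rw [min_eq_left (by omega)]
      have e2 : c (j + 1) = j + 1 := by
        simp only [c]; rw [min_eq_left (by omega)]; push_cast; ring
      rw [e1, e2]; simp
    · have e1 : c j = c (j + 1) + 1 := by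
        simp only [c]
        rw [min_eq_right (by omega), min_eq_right (by omega)]
        have : 2 * h - (j : ℕ) = 2 * h - (j + 1) + 1 := by omega
        rw [this]; push_cast; ring
      rw [e1]; simp
  have h1 := hB (rv P f)
  rw [hz, normSq_rv P f hfP, normSq_rv Q g hgQ, hsumP, hsumQ] at h1
  have h2 : ∑ j, f (p j) ^ 2 = ∑ j ∈ Finset.range (2 * h + 1), c j ^ 2 := by
    rw [← Fin.sum_univ_eq_sum_range (fun j => c j ^ 2) (2 * h + 1)]
    refine Finset.sum_congr rfl fun j _ => ?_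
    rw [hfp]
    simp only [val]
    rw [mul_pow, mul_pow, ← pow_mul, mul_comm (j : ℕ) 2, pow_mul, sq (sg w _), sg_sq]
    norm_num
  have h3 : ∑ j, g (q j) ^ 2 ≤ 2 * h := by
    refine (Finset.sum_le_sum fun j _ => hgq j).trans ?_
    simp
  have h4 := tent_sum h
  have h5 : 0 ≤ ∑ j, g (q j) ^ 2 := Finset.sum_nonneg fun _ _ => sq_nonneg _
  rw [h2] at h1
  have hh' : (1 : ℝ) ≤ h := by exact_mod_cast hh
  have h6 : ∑ j ∈ Finset.range (2 * h + 1), c j ^ 2
      = ∑ j ∈ Finset.range (2 * h + 1), ((min j (2 * h - j) : ℕ) : ℝ) ^ 2 := rfl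
  rw [h6] at h1
  have h7 : 0 < 2 * (h : ℝ) ^ 3 + h := by positivity
  have hD : 0 ≤ D := by
    by_contra hcon
    push Not at hcon
    nlinarith
  have h8 : 2 * (h : ℝ) ^ 3 + h ≤ 3 * (D * (2 * h)) := by
    rw [← h4]
    exact mul_le_mul_of_nonneg_left (h1.trans (mul_le_mul_of_nonneg_left h3 hD)) (by norm_num)
  have h9 : (2 * (h : ℝ) ^ 2 + 1) * h ≤ (6 * D) * h := by nlinarith
  exact le_of_mul_le_mul_right h9 (by linarith)

end Pool.Agent.Q181.LW
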