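import Pool.Agent.Q181.LW.Up
import Pool.Agent.Q181.LW.Tent

set_option autoImplicit false
set_option linter.unusedSectionVars false

/-! The logarithmic law for representatives of classes of `K₁` of norm close to `3 / √2`. -/

namespace Pool.Agent.Q181.LW

open Matrix TH57.Thr

/-- the data of a tripod in a component -/
theorem triData_of_hasTripod {G : Type*} [Group G] {ι κ : Type*}
    (A : Matrix ι κ (MonoidAlgebra ℤ G)) (b : Vx G ι κ) (N : ℕ)
    (hT : HasTripod (cp A b).toSimpleGraph N) :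
    ∃ a o, TriData (wt A) N a o := by
  classical
  set Γ := (cp A b).toSimpleGraph with hΓ
  have hadj : ∀ u v : cp A b, Γ.Adj u v ↔ (gr A).Adj u.1 v.1 := fun u v =>
    SimpleGraph.ConnectedComponent.toSimpleGraph_adj _ u.2 v.2
  have hW : ∀ u v : cp A b, ¬ Γ.Adj u v → wt A u.1 v.1 = 0 := by
    intro u v h
    by_contra h1
    exact h ((hadj u v).2 h1)
  obtain ⟨a, o, h0, h1, h2⟩ := hT
  refine ⟨fun i k => (a i k).1, o.1, fun i => by rw [h0], ?_, ?_, ?_, ?_⟩
  · intro i j k l hk hl h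
    have h := Subtype.ext h
    by_cases hij : i = j
    · subst hij
      right
      refine ⟨rfl, ?_⟩
      have := h1 i k l hk hl
      rw [h, SimpleGraph.dist_self] at this
      omega
    · rcases Nat.eq_zero_or_pos k with hk0 | hk0
      · left
        refine ⟨hk0, ?_⟩
        subst hk0
        rw [h0 i, ← h0 j] at h
        have := h1 j 0 l (by omega) hl
        rw [h, SimpleGraph.dist_self] at this
        omega
      · rcases Nat.eq_zero_or_pos l with hl0 | hl0
        · exfalso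
          subst hl0
          rw [h0 j, ← h0 i] at h
          have := h1 i k 0 hk (by omega)
          rw [h, SimpleGraph.dist_self] at this
          omega
        · exfalso
          have := h2 i j k l hij hk0 hk hl0 hl
          rw [h, SimpleGraph.dist_self] at this
          omega
  · intro i k l hk hl h3 h4
    apply hW
    intro h
    have := SimpleGraph.dist_eq_one_iff_adj.2 h
    rw [h1 i k l hk hl] at this
    omega
  · intro i j k l hij hk0 hk hl0 hl
    apply hW
    intro h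
    have := SimpleGraph.dist_eq_one_iff_adj.2 h
    have := h2 i j k l hij hk0 hk hl0 hl
    omega
  · intro i k hk
    apply one_le_abs_wt
    change (gr A).Adj (a i k).1 (a i (k + 1)).1
    rw [← hadj, ← SimpleGraph.dist_eq_one_iff_adj, h1 i k (k + 1) (by omega) (by omega)]
    omega

section gen

variable {G : Type} [Group G] {ι κ : Type} [Fintype ι] [Fintype κ] [DecidableEq ι] [DecidableEq κ]

theorem norm_thr (A : Matrix ι κ (MonoidAlgebra ℤ G)) (δ : ℝ)
    (hA : NormLE A (3 / Real.sqrt 2 + δ)) : NormLE A (3 * (1 / Real.sqrt 2) + δ) := by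
  have h1 : 3 * (1 / Real.sqrt 2) = 3 / Real.sqrt 2 := by ring
  rw [h1]
  exact hA

theorem sq_inv_sqrt_two : (1 / Real.sqrt 2) ^ 2 = 1 / 2 := by
  rw [div_pow, one_pow, Real.sq_sqrt two_pos.le]

/-- **No long tripods in matrices with few rows.** -/
theorem noTripod_size (A : Matrix ι κ (MonoidAlgebra ℤ G))
    (hA : NormLE A (3 / Real.sqrt 2 + (1 / 2) ^ (2 * Fintype.card ι + 30))) (b : Vx G ι κ) :
    ¬ HasTripod (cp A b).toSimpleGraph (2 * Fintype.card ι + 26) := by
  intro h
  obtain ⟨a, o, hT⟩ := triData_of_hasTripod A b _ h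
  exact no_tri_size A (1 / Real.sqrt 2) _ (by positivity) sq_inv_sqrt_two (by positivity)
    (norm_thr A _ hA) hT le_rfl le_rfl

/-- **No long tripods in matrices which are bounded below.** -/
theorem noTripod_inv (A : Matrix ι κ (MonoidAlgebra ℤ G)) (K : ℕ)
    (hB : ∀ x : ι → MonoidAlgebra ℝ G, normSq x ≤ (K : ℝ) ^ 2 * normSq (x ᵥ* toReal A))
    (hA : NormLE A (3 / Real.sqrt 2 + (1 / 2) ^ (8 * K + 31))) (b : Vx G ι κ) :
    ¬ HasTripod (cp A b).toSimpleGraph (8 * K + 27) := by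
  intro h
  obtain ⟨a, o, hT⟩ := triData_of_hasTripod A b _ h
  have hb := norm_thr A _ hA
  rcases Nat.eq_zero_or_pos K with h0 | h0
  · subst h0
    -- the hypothesis says that there are no rows
    have h1 := hT.hW1 0 0 (by norm_num)
    have h2 : ∀ x : ι → MonoidAlgebra ℝ G, normSq x = 0 := by
      intro x
      have h3 := hB x
      norm_num at h3
      exact le_antisymm h3 (normSq_nonneg x)
    have h4 : IsEmpty ι := by
      by_contra hne
      rw [not_isEmpty_iff] at hne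
      obtain ⟨i⟩ := hne
      have h5 := h2 (Pi.single i 1)
      rw [normSq_eq] at h5
      have h6 : n1 ((Pi.single i 1 : ι → MonoidAlgebra ℝ G) i) ≤ 0 := by
        rw [← h5]
        exact Finset.single_le_sum
          (f := fun j => n1 ((Pi.single i 1 : ι → MonoidAlgebra ℝ G) j))
          (fun j _ => n1_nonneg _) (Finset.mem_univ i)
      rw [Pi.single_eq_same] at h6
      exact one_ne_zero (n1_eq_zero h6)
    rcases hu : a 0 0 with p | q
    · exact h4.elim p.2
    · rcases hv : a 0 (0 + 1) with p' | q'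
      · exact h4.elim p'.2
      · rw [hu, hv] at h1
        have : wt A (Sum.inr q) (Sum.inr q') = 0 := rfl
        rw [this, abs_zero] at h1
        norm_num at h1
  · have h1 := no_tri_inv A (1 / Real.sqrt 2) _ (by positivity) sq_inv_sqrt_two (by positivity)
      hb hT le_rfl ((K : ℝ) ^ 2) hB (2 * K) (by omega) (by omega)
    push_cast at h1
    nlinarith [sq_nonneg (K : ℝ)]

end gen

section kone

variable {Γ : Type} [Group Γ]

theorem TT_size (htf : ∀ g : Γ, ∀ k : ℕ, 0 < k → g ^ k = 1 → g = 1)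
    {κ : Type} [Fintype κ] [DecidableEq κ] (A : (Matrix κ κ (MonoidAlgebra ℤ Γ))ˣ)
    (hA : NormLE A.val (3 / Real.sqrt 2 + (1 / 2) ^ (2 * Fintype.card κ + 30))) :
    TT (TU Γ) A :=
  Pool.Agent.Q181.TO.TT_of htf A fun b =>
    Pool.Agent.Q181.TO.stab_cyclic_of htf A.val b _ (noTripod_size A.val hA b)

theorem TT_inv_law (htf : ∀ g : Γ, ∀ k : ℕ, 0 < k → g ^ k = 1 → g = 1)
    {κ : Type} [Fintype κ] [DecidableEq κ] (A : (Matrix κ κ (MonoidAlgebra ℤ Γ))ˣ)
    (K : ℕ) (hB : NormLE A⁻¹.val K)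
    (hA : NormLE A.val (3 / Real.sqrt 2 + (1 / 2) ^ (8 * K + 31))) :
    TT (TU Γ) A :=
  Pool.Agent.Q181.TO.TT_of htf A fun b =>
    Pool.Agent.Q181.TO.stab_cyclic_of htf A.val b _
      (noTripod_inv A.val K (LB_of_inv A.val A⁻¹.val A.mul_inv K hB) hA b)

theorem represents_of_repG {n m : ℕ} (A : (Matrix (Fin n) (Fin n) (MonoidAlgebra ℤ Γ))ˣ)
    (B : (Matrix (Fin n ⊕ Fin m) (Fin n ⊕ Fin m) (MonoidAlgebra ℤ Γ))ˣ) (h : RepG A B) :
    Represents A B := by
  obtain ⟨C, hC, rfl⟩ := h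
  exact ⟨C, hC, rfl⟩

theorem pow_half_le {L M : ℕ} (h : M ≤ L) : ((1 : ℝ) / 2) ^ L ≤ (1 / 2) ^ M :=
  pow_le_pow_of_le_one (by norm_num) (by norm_num) h

theorem thr_mono {κ : Type} [Fintype κ] [DecidableEq κ] (A : Matrix κ κ (MonoidAlgebra ℤ Γ))
    {L M : ℕ} (h : M ≤ L) (hA : NormLE A (3 / Real.sqrt 2 + (1 / 2) ^ L)) :
    NormLE A (3 / Real.sqrt 2 + (1 / 2) ^ M) :=
  NormLE_mono (by positivity) (by linarith [pow_half_le h]) hA

/-- the upper bound in final form -/
theorem upper_fin (n : ℕ) (A : (Matrix (Fin n) (Fin n) (MonoidAlgebra ℤ Γ))ˣ) :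
    ∃ C : ℕ, ∀ L : ℕ, 1 ≤ L → ∃ (m : ℕ)
      (B : (Matrix (Fin n ⊕ Fin m) (Fin n ⊕ Fin m) (MonoidAlgebra ℤ Γ))ˣ),
      Represents A B ∧ m ≤ C * L ∧ NormLE B.val (3 / Real.sqrt 2 + (1 / 2) ^ L) ∧
        NormLE B⁻¹.val (C * L : ℕ) := by
  obtain ⟨C, hC⟩ := upper n A (1 / Real.sqrt 2) (by positivity) sq_inv_sqrt_two
  refine ⟨3 * C, fun L hL => ?_⟩
  obtain ⟨m, B, hR, hm, hN, hi⟩ := hC (L + 2) (by omega)
  refine ⟨m, B, represents_of_repG A B hR, by nlinarith, NormLE_mono (by positivity) ?_ hN,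
    NormLE_mono (by positivity) ?_ hi⟩
  · have h1 : 3 * (1 / Real.sqrt 2) = 3 / Real.sqrt 2 := by ring
    rw [h1, pow_add]
    have h2 : (0 : ℝ) < (1 / 2) ^ L := by positivity
    norm_num
    linarith
  · push_cast
    have h1 : (1 : ℝ) ≤ L := by exact_mod_cast hL
    have h2 : (0 : ℝ) ≤ C := Nat.cast_nonneg _
    nlinarith

end kone

end Pool.Agent.Q181.LW
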