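import Pool.Agent.Q181.TO.Vec

set_option autoImplicit false
set_option linter.unusedSectionVars false

/-! The Schur test for matrices over group rings. -/

namespace Pool.Agent.Q181.LW

open Matrix TH57.Thr

variable {G : Type} [Group G]

theorem n1_eq_zero {y : MonoidAlgebra ℝ G} (h : n1 y ≤ 0) : y = 0 := by
  by_contra hcon
  have h1 : y.coeff.support.Nonempty := by
    rw [Finsupp.support_nonempty_iff]
    intro h
    exact hcon (by ext g; rw [h]; rfl)
  obtain ⟨g, hg⟩ := h1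
  have h2 : y.coeff g ^ 2 ≤ n1 y :=
    Finset.single_le_sum (f := fun g => y.coeff g ^ 2) (fun _ _ => sq_nonneg _) hg
  have h3 : y.coeff g ≠ 0 := Finsupp.mem_support_iff.1 hg
  have h4 : 0 < y.coeff g ^ 2 := by positivity
  linarith

theorem n1_add_le' (y z : MonoidAlgebra ℝ G) (a b c d : ℝ) (ha : 0 ≤ a) (hb : 0 ≤ b)
    (hc : 0 ≤ c) (hd : 0 ≤ d) (h1 : n1 y ≤ a * b) (h2 : n1 z ≤ c * d) :
    n1 (y + z) ≤ (a + c) * (b + d) := by
  rcases ha.eq_or_lt with h | h
  · rw [← h, zero_mul] at h1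
    rw [n1_eq_zero h1, zero_add]
    refine h2.trans ?_
    rw [← h]
    nlinarith [mul_nonneg hc hb]
  · rcases hc.eq_or_lt with h' | h'
    · rw [← h', zero_mul] at h2
      rw [n1_eq_zero h2, add_zero]
      refine h1.trans ?_
      rw [← h']
      nlinarith [mul_nonneg ha hd]
    · have h3 := n1_add_le y z (c / a) (div_pos h' h)
      have h4 : (1 + c / a) * n1 y ≤ (1 + c / a) * (a * b) :=
        mul_le_mul_of_nonneg_left h1 (by positivity)
      have h5 : (1 + (c / a)⁻¹) * n1 z ≤ (1 + (c / a)⁻¹) * (c * d) :=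
        mul_le_mul_of_nonneg_left h2 (by positivity)
      have h6 : (1 + c / a) * (a * b) + (1 + (c / a)⁻¹) * (c * d) = (a + c) * (b + d) := by
        field_simp
        ring
      linarith

/-- the triangle inequality in the form of Cauchy-Schwarz -/
theorem n1_sum_le {α : Type*} (s : Finset α) (y : α → MonoidAlgebra ℝ G) (a b : α → ℝ)
    (ha : ∀ i ∈ s, 0 ≤ a i) (hb : ∀ i ∈ s, 0 ≤ b i) (h : ∀ i ∈ s, n1 (y i) ≤ a i * b i) :
    n1 (∑ i ∈ s, y i) ≤ (∑ i ∈ s, a i) * ∑ i ∈ s, b i := by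
  classical
  induction s using Finset.induction_on with
  | empty => simp [n1_zero]
  | insert i s hi ih =>
    rw [Finset.sum_insert hi, Finset.sum_insert hi, Finset.sum_insert hi]
    have h1 := ih (fun j hj => ha j (Finset.mem_insert_of_mem hj))
      (fun j hj => hb j (Finset.mem_insert_of_mem hj))
      (fun j hj => h j (Finset.mem_insert_of_mem hj))
    exact n1_add_le' _ _ _ _ _ _ (ha i (Finset.mem_insert_self _ _))
      (hb i (Finset.mem_insert_self _ _))
      (Finset.sum_nonneg fun j hj => ha j (Finset.mem_insert_of_mem hj))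
      (Finset.sum_nonneg fun j hj => hb j (Finset.mem_insert_of_mem hj))
      (h i (Finset.mem_insert_self _ _)) h1

/-- an element is zero or plus or minus a group element -/
def Mono (x : MonoidAlgebra ℤ G) : Prop :=
  x = 0 ∨ ∃ g : G, x = MonoidAlgebra.single g 1 ∨ x = MonoidAlgebra.single g (-1)

theorem mono_zero : Mono (0 : MonoidAlgebra ℤ G) := Or.inl rfl

theorem mono_one : Mono (1 : MonoidAlgebra ℤ G) := Or.inr ⟨1, Or.inl rfl⟩

theorem mono_neg {x : MonoidAlgebra ℤ G} (h : Mono x) : Mono (-x) := by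
  rcases h with rfl | ⟨g, rfl | rfl⟩
  · exact Or.inl neg_zero
  · exact Or.inr ⟨g, Or.inr (by rw [← MonoidAlgebra.single_neg])⟩
  · exact Or.inr ⟨g, Or.inl (by rw [← MonoidAlgebra.single_neg, neg_neg])⟩

theorem n1_neg_one (y : MonoidAlgebra ℝ G) (g : G) :
    n1 (y * MonoidAlgebra.single g (-1)) = n1 y := by
  have h1 : (MonoidAlgebra.single g (-1) : MonoidAlgebra ℝ G) = -MonoidAlgebra.single g 1 := by
    rw [← MonoidAlgebra.single_neg]
  rw [h1, mul_neg, n1_neg, n1_mul_single]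

theorem n1_mul_mono (y : MonoidAlgebra ℝ G) (x : MonoidAlgebra ℤ G) (hx : Mono x) (m : ℝ)
    (hm : x ≠ 0 → 1 ≤ m) (hm0 : 0 ≤ m) :
    n1 (y * MonoidAlgebra.mapRingHom G (Int.castRingHom ℝ) x) ≤ m * (m * n1 y) := by
  have h0 := n1_nonneg y
  have hle : ∀ z : MonoidAlgebra ℤ G, x = z → z ≠ 0 → n1 y ≤ m * (m * n1 y) := by
    intro z hz hz0
    have h1 := hm (by rw [hz]; exact hz0)
    nlinarith [mul_le_mul h1 h1 zero_le_one hm0]
  rcases hx with rfl | ⟨g, rfl | rfl⟩
  · rw [map_zero, mul_zero, n1_zero]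
    positivity
  · have h1 : MonoidAlgebra.mapRingHom G (Int.castRingHom ℝ)
        (MonoidAlgebra.single g (1 : ℤ)) = MonoidAlgebra.single g 1 := by
      simp
    rw [h1, n1_mul_single]
    exact hle _ rfl (by simp [MonoidAlgebra.single_eq_zero])
  · have h1 : MonoidAlgebra.mapRingHom G (Int.castRingHom ℝ)
        (MonoidAlgebra.single g (-1 : ℤ)) = MonoidAlgebra.single g (-1) := by
      simp
    rw [h1, n1_neg_one]
    exact hle _ rfl (by simp [MonoidAlgebra.single_eq_zero])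

/-- **The Schur test.** -/
theorem schur_test {ι κ : Type} [Fintype ι] [Fintype κ] (M : Matrix ι κ (MonoidAlgebra ℤ G))
    (hM : ∀ i j, Mono (M i j)) (m : ι → κ → ℝ) (hm : ∀ i j, M i j ≠ 0 → 1 ≤ m i j)
    (hm0 : ∀ i j, 0 ≤ m i j) (ψ : ι → ℝ) (φ : κ → ℝ) (hψ : ∀ i, 0 < ψ i) (μ ν : ℝ)
    (hμ : 0 ≤ μ) (hν : 0 ≤ ν) (hφ : ∀ j, 0 ≤ φ j)
    (h1 : ∀ i, ∑ j, m i j * φ j ≤ μ * ψ i) (h2 : ∀ j, ∑ i, m i j * ψ i ≤ ν * φ j) :
    NS M (μ * ν) := by
  intro x
  have hj : ∀ j, n1 ((x ᵥ* toReal M) j) ≤ ν * (φ j * ∑ i, m i j * (n1 (x i) / ψ i)) := by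
    intro j
    have h3 : (x ᵥ* toReal M) j
        = ∑ i, x i * MonoidAlgebra.mapRingHom G (Int.castRingHom ℝ) (M i j) := rfl
    rw [h3]
    refine (n1_sum_le Finset.univ _ (fun i => m i j * ψ i) (fun i => m i j * (n1 (x i) / ψ i))
      (fun i _ => mul_nonneg (hm0 i j) (hψ i).le)
      (fun i _ => mul_nonneg (hm0 i j) (div_nonneg (n1_nonneg _) (hψ i).le)) ?_).trans ?_
    · intro i _
      refine (n1_mul_mono (x i) (M i j) (hM i j) (m i j) (hm i j) (hm0 i j)).trans (le_of_eq ?_)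
      have := (hψ i).ne'
      field_simp
    · rw [← mul_assoc]
      exact mul_le_mul_of_nonneg_right (h2 j) (Finset.sum_nonneg fun i _ =>
        mul_nonneg (hm0 i j) (div_nonneg (n1_nonneg _) (hψ i).le))
  rw [normSq_eq, normSq_eq]
  calc ∑ j, n1 ((x ᵥ* toReal M) j) ≤ ∑ j, ν * (φ j * ∑ i, m i j * (n1 (x i) / ψ i)) :=
        Finset.sum_le_sum fun j _ => hj j
    _ = ν * ∑ i, (n1 (x i) / ψ i) * ∑ j, m i j * φ j := by
        rw [← Finset.mul_sum]
        congr 1
        simp only [Finset.mul_sum]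
        rw [Finset.sum_comm]
        refine Finset.sum_congr rfl fun i _ => Finset.sum_congr rfl fun j _ => ?_
        ring
    _ ≤ ν * ∑ i, (n1 (x i) / ψ i) * (μ * ψ i) := by
        refine mul_le_mul_of_nonneg_left (Finset.sum_le_sum fun i _ => ?_) hν
        exact mul_le_mul_of_nonneg_left (h1 i) (div_nonneg (n1_nonneg _) (hψ i).le)
    _ = μ * ν * ∑ i, n1 (x i) := by
        have h4 : ∀ i, (n1 (x i) / ψ i) * (μ * ψ i) = μ * n1 (x i) := by
          intro i
          have := (hψ i).ne'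
          field_simp
        simp only [h4]
        rw [← Finset.mul_sum]
        ring

end Pool.Agent.Q181.LW
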