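import Pool.Agent.Q181.TO.Cyc
import Pool.Agent.Q181.LW.Sch

set_option autoImplicit false
set_option linter.unusedSectionVars false
set_option linter.unusedSimpArgs false

/-! Boundedness of matrices over group rings; the notion of trivial torsion. -/

namespace Pool.Agent.Q181.LW

open Matrix TH57.Thr TH6.LF

section bdd

variable {G : Type} [Group G]

theorem n1_mul_single' (y : MonoidAlgebra ℝ G) (g : G) (n : ℝ) :
    n1 (y * MonoidAlgebra.single g n) = n ^ 2 * n1 y := by
  have h1 : y * MonoidAlgebra.single g n = n • (y * MonoidAlgebra.single g 1) := by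
    rw [← mul_smul_comm, MonoidAlgebra.smul_single, smul_eq_mul, mul_one]
  rw [h1, ← n1_mul_single y g]
  rw [n1_eq (n • (y * MonoidAlgebra.single g 1)) (y * MonoidAlgebra.single g 1).coeff.support
    (Finsupp.support_smul), n1, Finset.mul_sum]
  refine Finset.sum_congr rfl fun h _ => ?_
  have : (n • (y * MonoidAlgebra.single g (1 : ℝ))).coeff h
      = n * (y * MonoidAlgebra.single g (1 : ℝ)).coeff h := rfl
  rw [this]
  ring

variable {ι κ : Type} [Fintype ι] [Fintype κ] [DecidableEq ι] [DecidableEq κ]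

theorem toReal_add (A B : Matrix ι κ (MonoidAlgebra ℤ G)) :
    toReal (A + B) = toReal A + toReal B := by
  ext i j
  simp [toReal]

/-- Every matrix is bounded. -/
theorem exists_NS (A : Matrix ι κ (MonoidAlgebra ℤ G)) : ∃ w : ℝ, 0 ≤ w ∧ NS A w := by
  induction A using Matrix.induction_on' with
  | h_zero =>
    refine ⟨0, le_rfl, fun x => ?_⟩
    rw [toReal_zero, Matrix.vecMul_zero, normSq_eq]
    simp [n1_zero]
  | h_add A B hA hB =>
    obtain ⟨w, hw0, hw⟩ := hA
    obtain ⟨v, hv0, hv⟩ := hB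
    refine ⟨2 * w + 2 * v, by positivity, fun x => ?_⟩
    rw [toReal_add, Matrix.vecMul_add]
    have h1 := normSq_add_le (x ᵥ* toReal A) (x ᵥ* toReal B) 1 one_pos
    have h2 := hw x
    have h3 := hv x
    have h4 : (1 : ℝ) + (1 : ℝ)⁻¹ = 2 := by norm_num
    have h5 : (1 : ℝ) + 1 = 2 := by norm_num
    rw [h4, h5] at h1
    nlinarith
  | h_std_basis i j a =>
    induction a using MonoidAlgebra.induction_linear with
    | zero =>
      refine ⟨0, le_rfl, fun x => ?_⟩
      rw [Matrix.single_zero, toReal_zero, Matrix.vecMul_zero, normSq_eq]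
      simp [n1_zero]
    | add a b ha hb =>
      obtain ⟨w, hw0, hw⟩ := ha
      obtain ⟨v, hv0, hv⟩ := hb
      refine ⟨2 * w + 2 * v, by positivity, fun x => ?_⟩
      rw [Matrix.single_add, toReal_add, Matrix.vecMul_add]
      have h1 := normSq_add_le (x ᵥ* toReal (Matrix.single i j a))
        (x ᵥ* toReal (Matrix.single i j b)) 1 one_pos
      have h2 := hw x
      have h3 := hv x
      have h4 : (1 : ℝ) + (1 : ℝ)⁻¹ = 2 := by norm_num
      have h5 : (1 : ℝ) + 1 = 2 := by norm_num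
      rw [h4, h5] at h1
      nlinarith
    | single g n =>
      refine ⟨(n : ℝ) ^ 2, by positivity, fun x => ?_⟩
      have h1 : x ᵥ* toReal (Matrix.single i j (MonoidAlgebra.single g n))
          = fun k => if k = j then x i * MonoidAlgebra.single g (n : ℝ) else 0 := by
        funext k
        rw [Matrix.vecMul, dotProduct, Finset.sum_eq_single i]
        · by_cases h : k = j
          · subst h
            simp [toReal]
          · rw [if_neg h]
            simp [toReal, Matrix.single_apply, Ne.symm h]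
        · intro l _ hl
          simp [toReal, Matrix.single_apply, Ne.symm hl]
        · intro h; exact absurd (Finset.mem_univ _) h
      rw [h1, normSq_eq, normSq_eq, Finset.sum_eq_single j]
      · rw [if_pos rfl, n1_mul_single']
        exact mul_le_mul_of_nonneg_left
          (Finset.single_le_sum (f := fun i => n1 (x i)) (fun i _ => n1_nonneg _)
            (Finset.mem_univ i)) (sq_nonneg _)
      · intro k _ hk
        rw [if_neg hk, n1_zero]
      · intro h; exact absurd (Finset.mem_univ _) h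

theorem exists_NormLE (A : Matrix ι κ (MonoidAlgebra ℤ G)) :
    ∃ M : ℕ, 1 ≤ M ∧ NormLE A (Real.sqrt M) := by
  obtain ⟨w, hw0, hw⟩ := exists_NS A
  obtain ⟨M, hM⟩ := exists_nat_ge w
  refine ⟨M + 1, by omega, fun x => ?_⟩
  rw [Real.sq_sqrt (Nat.cast_nonneg _)]
  refine (hw x).trans (mul_le_mul_of_nonneg_right ?_ (normSq_nonneg x))
  push_cast
  linarith

end bdd

section kone

variable {Γ : Type} [Group Γ]

theorem NormLE_mono {ι κ : Type} [Fintype ι] [Fintype κ] {A : Matrix ι κ (MonoidAlgebra ℤ Γ)}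
    {c d : ℝ} (hc : 0 ≤ c) (hcd : c ≤ d) (h : NormLE A c) : NormLE A d := fun x =>
  (h x).trans (mul_le_mul_of_nonneg_right (pow_le_pow_left₀ hc hcd 2) (normSq_nonneg x))

/-- The class of `A` in the Whitehead group vanishes: after stabilisation `A` is the product of a
diagonal matrix with one entry `±g` and of an element of the commutator subgroup. -/
def TrivialTorsion {n : ℕ} (A : (Matrix (Fin n) (Fin n) (MonoidAlgebra ℤ Γ))ˣ) : Prop :=
  ∃ (m : ℕ) (g : Γ) (ε : ℤˣ)
      (C : (Matrix (Fin n ⊕ Fin (m + 1)) (Fin n ⊕ Fin (m + 1)) (MonoidAlgebra ℤ Γ))ˣ),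
      C ∈ commutator (Matrix (Fin n ⊕ Fin (m + 1)) (Fin n ⊕ Fin (m + 1))
              (MonoidAlgebra ℤ Γ))ˣ ∧
      Matrix.fromBlocks (↑A : Matrix (Fin n) (Fin n) (MonoidAlgebra ℤ Γ))
          (0 : Matrix (Fin n) (Fin (m + 1)) (MonoidAlgebra ℤ Γ))
          (0 : Matrix (Fin (m + 1)) (Fin n) (MonoidAlgebra ℤ Γ))
          (1 : Matrix (Fin (m + 1)) (Fin (m + 1)) (MonoidAlgebra ℤ Γ)) =
        Matrix.diagonal (fun i : Fin n ⊕ Fin (m + 1) =>
            if i = Sum.inr (0 : Fin (m + 1)) then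
              (MonoidAlgebra.single g ((ε : ℤ)) : MonoidAlgebra ℤ Γ) else 1) *
          (↑C : Matrix (Fin n ⊕ Fin (m + 1)) (Fin n ⊕ Fin (m + 1)) (MonoidAlgebra ℤ Γ))

/-- `B` is `A ⊕ 1` times an element of the commutator subgroup. -/
def Represents {n m : ℕ} (A : (Matrix (Fin n) (Fin n) (MonoidAlgebra ℤ Γ))ˣ)
    (B : (Matrix (Fin n ⊕ Fin m) (Fin n ⊕ Fin m) (MonoidAlgebra ℤ Γ))ˣ) : Prop :=
  ∃ C ∈ commutator (Matrix (Fin n ⊕ Fin m) (Fin n ⊕ Fin m) (MonoidAlgebra ℤ Γ))ˣ,
    (B : Matrix (Fin n ⊕ Fin m) (Fin n ⊕ Fin m) (MonoidAlgebra ℤ Γ))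
      = fromBlocks (A : Matrix (Fin n) (Fin n) (MonoidAlgebra ℤ Γ)) 0 0 1
        * (C : Matrix (Fin n ⊕ Fin m) (Fin n ⊕ Fin m) (MonoidAlgebra ℤ Γ))

theorem TT_of_represents {n m : ℕ} (A : (Matrix (Fin n) (Fin n) (MonoidAlgebra ℤ Γ))ˣ)
    (B : (Matrix (Fin n ⊕ Fin m) (Fin n ⊕ Fin m) (MonoidAlgebra ℤ Γ))ˣ) (h : Represents A B)
    (hB : TT (TU Γ) B) : TT (TU Γ) A := by
  obtain ⟨C, hC, hBC⟩ := h
  have h1 : B = Units.map (stm (Fin m)) A * C := Units.ext hBC
  have h2 : Units.map (stm (Fin m)) A = B * C⁻¹ := by rw [h1, mul_inv_cancel_right]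
  refine TT_unst (μ := Fin m) _ A ?_
  rw [h2]
  exact TT_mul _ _ _ hB (TT_inv _ _ (TT_of_mem _ _ (commutator_le_HH _ hC)))

end kone

end Pool.Agent.Q181.LW
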