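import Pool.Agent.TH57.Thr.Red

set_option autoImplicit false
set_option linter.unusedSectionVars false

/-! Dilations of invertible matrices and their classes in `K₁`. -/

namespace Pool.Agent.Q181.LW

open Matrix TH57.Thr

section tri

variable {R : Type} [Ring R] {X : Type} [Fintype X] [DecidableEq X]

/-- Unitriangular matrices are products of elementary matrices. -/
theorem el_tri (M : Matrix X X R) (r : X → ℕ) (h1 : ∀ x, M x x = 1)
    (h2 : ∀ x y, x ≠ y → M x y ≠ 0 → r x < r y) : M ∈ El (R := R) X := by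
  classical
  let Mp : ℕ → Matrix X X R := fun p x y => if r x < p then M x y else (1 : Matrix X X R) x y
  have hstep : ∀ p, Mp p ∈ El (R := R) X := by
    intro p
    induction p with
    | zero =>
      have : Mp 0 = 1 := by
        ext x y
        simp [Mp]
      rw [this]
      exact one_mem _
    | succ p ih =>
      let Z : Matrix X X R := fun x y => if r x = p ∧ x ≠ y then M x y else 0
      have hZ : 1 + Z ∈ El (R := R) X := by
        refine el_unip (Finset.univ.filter fun x => r x ≤ p) Z ?_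
        intro x y hxy
        simp only [Z] at hxy
        split_ifs at hxy with h
        · have h3 := h2 x y h.2 hxy
          rw [Finset.mem_filter, Finset.mem_filter]
          refine ⟨⟨Finset.mem_univ _, by omega⟩, fun h4 => ?_⟩
          have := h4.2
          omega
        · exact absurd rfl hxy
      have heq : Mp (p + 1) = (1 + Z) * Mp p := by
        ext x y
        rw [Matrix.add_mul, Matrix.one_mul, Matrix.add_apply, Matrix.mul_apply]
        have h3 : ∀ z, Z x z * Mp p z y = Z x z * (1 : Matrix X X R) z y := by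
          intro z
          by_cases h4 : Z x z = 0
          · rw [h4, zero_mul, zero_mul]
          · have h5 : r x = p ∧ x ≠ z ∧ M x z ≠ 0 := by
              simp only [Z] at h4
              split_ifs at h4 with h6
              · exact ⟨h6.1, h6.2, h4⟩
              · exact absurd rfl h4
            have h6 := h2 x z h5.2.1 h5.2.2
            simp only [Mp]
            rw [if_neg (by omega)]
        simp only [h3]
        have h4 : ∑ z, Z x z * (1 : Matrix X X R) z y = Z x y := by
          rw [← Matrix.mul_apply, Matrix.mul_one]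
        rw [h4]
        simp only [Mp, Z]
        rcases lt_trichotomy (r x) p with h | h | h
        · rw [if_pos (by omega), if_pos h, if_neg (by omega), add_zero]
        · rw [if_pos (by omega), if_neg (by omega)]
          by_cases hxy : x = y
          · subst hxy; simp [h1]
          · rw [if_pos ⟨h, hxy⟩, Matrix.one_apply_ne hxy, zero_add]
        · rw [if_neg (by omega), if_neg (by omega), if_neg (by omega), add_zero]
      rw [heq]
      exact mul_mem hZ ih
  have h3 : Mp (Finset.univ.sup r + 1) = M := by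
    ext x y
    simp only [Mp]
    rw [if_pos]
    exact Nat.lt_succ_of_le (Finset.le_sup (Finset.mem_univ x))
  rw [← h3]
  exact hstep _

end tri

section dil

variable {R : Type} [Ring R] {κ X Y : Type} [Fintype κ] [DecidableEq κ] [Fintype X] [DecidableEq X]
  [Fintype Y] [DecidableEq Y]

/-- `B` is `A ⊕ 1` times a commutator element. -/
def RepG (A : (Matrix κ κ R)ˣ) (B : (Matrix (κ ⊕ X) (κ ⊕ X) R)ˣ) : Prop :=
  ∃ C ∈ commutator (Matrix (κ ⊕ X) (κ ⊕ X) R)ˣ, B = Units.map (stm X) A * C

/-- **Dilation.** -/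
theorem dilate (A : (Matrix κ κ R)ˣ) (Q : Matrix κ X R) (S : Matrix X κ R) (U V : Matrix X X R)
    (r : X → ℕ) (h1 : ∀ x, U x x = 1) (h2 : ∀ x y, x ≠ y → U x y ≠ 0 → r x < r y)
    (hVU : V * U = 1) (hA : (A : Matrix κ κ R) = -(Q * V * S))
    (hcard : 3 ≤ Fintype.card (κ ⊕ X)) :
    ∃ B : (Matrix (κ ⊕ X) (κ ⊕ X) R)ˣ, (B : Matrix (κ ⊕ X) (κ ⊕ X) R) = fromBlocks 0 Q S U ∧
      RepG A B := by
  classical
  have hE1 : (fromBlocks 1 (Q * V) 0 1 : Matrix (κ ⊕ X) (κ ⊕ X) R) ∈ El (R := R) (κ ⊕ X) := by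
    apply el_tri _ (Sum.elim (fun _ => 0) (fun _ => 1))
    · rintro (i | x) <;> simp
    · rintro (i | x) (j | y) hxy h <;> simp at h hxy ⊢
      · exact h (Matrix.one_apply_ne hxy)
      · exact h (Matrix.one_apply_ne hxy)
  have hE2 : (fromBlocks 1 0 S U : Matrix (κ ⊕ X) (κ ⊕ X) R) ∈ El (R := R) (κ ⊕ X) := by
    apply el_tri _ (Sum.elim (fun _ => Finset.univ.sup r + 1) r)
    · rintro (i | x) <;> simp [h1]
    · rintro (i | x) (j | y) hxy h
      · simp at h hxy; exact absurd (Matrix.one_apply_ne hxy) h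
      · simp at h
      · exact Nat.lt_succ_of_le (Finset.le_sup (Finset.mem_univ x))
      · simp at h hxy
        exact h2 x y hxy h
  obtain ⟨u1, hu1, hu1c⟩ := comm_of_El hcard _ hE1
  obtain ⟨u2, hu2, hu2c⟩ := comm_of_El hcard _ hE2
  refine ⟨u1 * Units.map (stm X) A * u2, ?_, (Units.map (stm X) A)⁻¹ * u1 * Units.map (stm X) A
    * u2, mul_mem ?_ hu2c, ?_⟩
  · rw [Units.val_mul, Units.val_mul, hu1, hu2]
    change fromBlocks 1 (Q * V) 0 1 * fromBlocks (A : Matrix κ κ R) 0 0 1 * fromBlocks 1 0 S U = _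
    rw [fromBlocks_multiply, fromBlocks_multiply]
    simp only [Matrix.one_mul, Matrix.mul_zero, Matrix.zero_mul, Matrix.mul_one, add_zero,
      zero_add]
    rw [hA, Matrix.mul_assoc Q V U, hVU, Matrix.mul_one, neg_add_cancel]
  · have := (inferInstance : (commutator (Matrix (κ ⊕ X) (κ ⊕ X) R)ˣ).Normal).conj_mem u1 hu1c
      (Units.map (stm X) A)⁻¹
    rwa [inv_inv] at this
  · group

theorem repG_trans (A : (Matrix κ κ R)ˣ) (B : (Matrix (κ ⊕ X) (κ ⊕ X) R)ˣ)
    (D : (Matrix ((κ ⊕ X) ⊕ Y) ((κ ⊕ X) ⊕ Y) R)ˣ) (h1 : RepG A B) (h2 : RepG B D) :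
    RepG A (Units.map (re (Equiv.sumAssoc κ X Y).symm) D) := by
  obtain ⟨C, hC, rfl⟩ := h1
  obtain ⟨C', hC', rfl⟩ := h2
  refine ⟨Units.map (re (Equiv.sumAssoc κ X Y).symm) (Units.map (stm Y) C * C'),
    comm_re _ _ (mul_mem ?_ hC'), ?_⟩
  · have h3 : (commutator (Matrix (κ ⊕ X) (κ ⊕ X) R)ˣ).map (Units.map (stm (R := R) Y))
        ≤ commutator (Matrix ((κ ⊕ X) ⊕ Y) ((κ ⊕ X) ⊕ Y) R)ˣ := by
      rw [commutator_def, Subgroup.map_commutator]
      exact Subgroup.commutator_mono le_top le_top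
    exact h3 (Subgroup.mem_map_of_mem _ hC)
  · simp only [map_mul, mul_assoc]
    congr 1
    apply Units.ext
    ext (i | i | i) (j | j | j) <;> simp [stm, re, Matrix.one_apply]

theorem repG_re (A : (Matrix κ κ R)ˣ) (B : (Matrix (κ ⊕ X) (κ ⊕ X) R)ˣ) (e : Y ≃ X)
    (h : RepG A B) : RepG A (Units.map (re (Equiv.sumCongr (Equiv.refl κ) e)) B) := by
  obtain ⟨C, hC, rfl⟩ := h
  refine ⟨Units.map (re (Equiv.sumCongr (Equiv.refl κ) e)) C, comm_re _ _ hC, ?_⟩
  rw [map_mul]
  congr 1
  apply Units.ext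
  ext (i | i) (j | j) <;> simp [stm, re, Matrix.one_apply]

end dil

end Pool.Agent.Q181.LW
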