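import Pool.Agent.Q181.LW.Form

set_option autoImplicit false

/-! No vertex outside a long tripod sees the arms of the tripod far from the centre and from the
ends, if the norm is at most `3 / √2` plus an exponentially small number. -/

namespace Pool.Agent.Q181.LW

/-- one arm: completing the square -/
theorem arm_sq (t : ℝ) (ht : t ^ 2 = 1 / 2) (x : ℕ → ℝ) (K : ℕ) :
    t * ∑ k ∈ Finset.range K, (2 * t * x (k + 1) - x k) ^ 2 + t * x K ^ 2
      = t * x 0 ^ 2 + 3 * t * (∑ k ∈ Finset.range K, x (k + 1) ^ 2)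
        - 2 * ∑ k ∈ Finset.range K, x k * x (k + 1) := by
  induction K with
  | zero => simp
  | succ K ih =>
    rw [Finset.sum_range_succ, Finset.sum_range_succ, Finset.sum_range_succ]
    have h1 : t * (2 * t * x (K + 1) - x K) ^ 2
        = 4 * t * t ^ 2 * x (K + 1) ^ 2 - 4 * t ^ 2 * (x K * x (K + 1)) + t * x K ^ 2 := by ring
    rw [ht] at h1
    linear_combination ih + h1

theorem form_sq (t : ℝ) (ht : t ^ 2 = 1 / 2) (x : Fin 3 → ℕ → ℝ) (hx : ∀ i, x i 0 = x 0 0)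
    (K : ℕ) :
    3 * t * nrm K x - frm K (fun _ _ => 1) x
      = t * (∑ i, ∑ k ∈ Finset.range K, (2 * t * x i (k + 1) - x i k) ^ 2)
        + t * ∑ i, x i K ^ 2 := by
  have h := fun i => arm_sq t ht (x i) K
  unfold nrm frm
  simp only [Fin.sum_univ_three, one_mul]
  have h0 := h 0
  have h1 := h 1
  have h2 := h 2
  rw [hx 1] at h1
  rw [hx 2] at h2
  linear_combination -h0 - h1 - h2

/-- the form is at most twice the norm, if the value at the centre is zero -/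
theorem frm_le (x : Fin 3 → ℕ → ℝ) (hx : ∀ i, x i 0 = 0) (K : ℕ) :
    frm K (fun _ _ => 1) x ≤ 2 * nrm K x := by
  have h : ∀ i, ∑ k ∈ Finset.range K, 2 * (x i k * x i (k + 1))
      ≤ 2 * ∑ k ∈ Finset.range K, x i (k + 1) ^ 2 := by
    intro i
    have h1 : ∑ k ∈ Finset.range K, x i k ^ 2 ≤ ∑ k ∈ Finset.range K, x i (k + 1) ^ 2 := by
      have h2 : ∑ k ∈ Finset.range (K + 1), x i k ^ 2
          = ∑ k ∈ Finset.range K, x i (k + 1) ^ 2 + x i 0 ^ 2 := Finset.sum_range_succ' _ _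
      rw [Finset.sum_range_succ, hx i] at h2
      nlinarith [sq_nonneg (x i K)]
    have h3 : ∑ k ∈ Finset.range K, 2 * (x i k * x i (k + 1))
        ≤ ∑ k ∈ Finset.range K, (x i k ^ 2 + x i (k + 1) ^ 2) :=
      Finset.sum_le_sum fun k _ => by nlinarith [sq_nonneg (x i k - x i (k + 1))]
    rw [Finset.sum_add_distrib] at h3
    linarith
  have h0 := h 0
  have h1 := h 1
  have h2 := h 2
  rw [← Finset.mul_sum] at h0 h1 h2
  unfold nrm frm
  simp only [Fin.sum_univ_three, one_mul]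
  nlinarith [sq_nonneg (x 0 0)]

theorem pow_tt (t : ℝ) (ht : t ^ 2 = 1 / 2) (m : ℕ) : t ^ (2 * m) = (1 / 2) ^ m := by
  rw [pow_mul, ht]

theorem half_pow_mul (m : ℕ) : (1 / 2 : ℝ) ^ m * 2 ^ m = 1 := by
  rw [← mul_pow]; norm_num

/-- the values of the dual vector -/
noncomputable def Sx (k₁ K : ℕ) (q : ℕ → ℤ) (l : ℕ) : ℤ :=
  ∑ k ∈ (Finset.range K).filter (fun k => l ≤ k), q (k + 1) * 2 ^ ((k₁ - (k + 1)) / 2)

theorem Sx_step (k₁ K : ℕ) (q : ℕ → ℤ) (l : ℕ) (hl : l < K) :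
    Sx k₁ K q l = q (l + 1) * 2 ^ ((k₁ - (l + 1)) / 2) + Sx k₁ K q (l + 1) := by
  unfold Sx
  have h1 : (Finset.range K).filter (fun k => l ≤ k)
      = insert l ((Finset.range K).filter (fun k => l + 1 ≤ k)) := by
    ext k
    simp only [Finset.mem_filter, Finset.mem_range, Finset.mem_insert]
    omega
  rw [h1, Finset.sum_insert (by simp)]

theorem Sx_zero (k₁ K : ℕ) (q : ℕ → ℤ) (hmax : ∀ k, k₁ < k → k ≤ K → q k = 0) (l : ℕ)
    (hl : k₁ ≤ l) : Sx k₁ K q l = 0 := by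
  unfold Sx
  refine Finset.sum_eq_zero fun k hk => ?_
  rw [Finset.mem_filter, Finset.mem_range] at hk
  rw [hmax (k + 1) (by omega) (by omega), zero_mul]

theorem Sx_odd (k₁ K : ℕ) (q : ℕ → ℤ) (hpar : ∀ k, k ≤ K → q k ≠ 0 → (k + k₁) % 2 = 0)
    (hmax : ∀ k, k₁ < k → k ≤ K → q k = 0) (hK : k₁ ≤ K) :
    ∀ d l, l + d + 1 = k₁ → ∃ z, Sx k₁ K q l = q k₁ + 2 * z := by
  intro d
  induction d with
  | zero =>
    intro l hl
    refine ⟨0, ?_⟩
    rw [Sx_step k₁ K q l (by omega), Sx_zero k₁ K q hmax (l + 1) (by omega)]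
    have h1 : l + 1 = k₁ := by omega
    rw [h1]
    simp
  | succ d ih =>
    intro l hl
    obtain ⟨z, hz⟩ := ih (l + 1) (by omega)
    rw [Sx_step k₁ K q l (by omega), hz]
    by_cases h : q (l + 1) = 0
    · exact ⟨z, by rw [h]; ring⟩
    · have h1 := hpar (l + 1) (by omega) h
      have h2 : (k₁ - (l + 1)) / 2 = (k₁ - (l + 1)) / 2 - 1 + 1 := by omega
      refine ⟨z + q (l + 1) * 2 ^ ((k₁ - (l + 1)) / 2 - 1), ?_⟩
      rw [h2, pow_succ]
      simp only [Nat.add_sub_cancel]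
      ring

/-- the dual vector -/
noncomputable def rx (t : ℝ) (k₁ K : ℕ) (q : ℕ → ℤ) (l : ℕ) : ℝ := t ^ (k₁ - l) * Sx k₁ K q l

theorem rx_step (t : ℝ) (ht : t ^ 2 = 1 / 2) (k₁ K : ℕ) (q : ℕ → ℤ)
    (hpar : ∀ k, k ≤ K → q k ≠ 0 → (k + k₁) % 2 = 0)
    (hmax : ∀ k, k₁ < k → k ≤ K → q k = 0) (l : ℕ) (hl : l < K) :
    rx t k₁ K q l = t * (q (l + 1) + rx t k₁ K q (l + 1)) := by
  unfold rx
  rcases Nat.lt_or_ge l k₁ with h | h
  · have h1 : k₁ - l = k₁ - (l + 1) + 1 := by omega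
    rw [Sx_step k₁ K q l hl, h1, pow_succ]
    by_cases h2 : q (l + 1) = 0
    · rw [h2]; push_cast; ring
    · have h3 := hpar (l + 1) (by omega) h2
      obtain ⟨m, hm⟩ : ∃ m, k₁ - (l + 1) = 2 * m := ⟨(k₁ - (l + 1)) / 2, by omega⟩
      rw [hm, pow_tt t ht, Nat.mul_div_cancel_left m two_pos]
      push_cast
      have h4 := half_pow_mul m
      linear_combination t * (q (l + 1) : ℝ) * h4
  · rw [Sx_zero k₁ K q hmax l h, Sx_zero k₁ K q hmax (l + 1) (by omega),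
      hmax (l + 1) (by omega) (by omega)]
    simp

/-- the test vector -/
noncomputable def xx (t : ℝ) (r : ℕ → ℝ) : ℕ → ℝ
  | 0 => 0
  | k + 1 => t * (xx t r k + r k)

theorem xx_pair (t : ℝ) (q r : ℕ → ℝ) (K : ℕ)
    (hr : ∀ l < K, r l = t * (q (l + 1) + r (l + 1))) :
    ∑ k ∈ Finset.range K, q (k + 1) * xx t r (k + 1) + xx t r K * r K
      = ∑ k ∈ Finset.range K, r k ^ 2 := by
  induction K with
  | zero => simp [xx]
  | succ K ih =>
    have h1 := ih fun l hl => hr l (by omega)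
    have h2 := hr K (by omega)
    rw [Finset.sum_range_succ, Finset.sum_range_succ, ← h1]
    have h3 : xx t r (K + 1) = t * (xx t r K + r K) := rfl
    rw [h3]
    have h4 : t * (xx t r K + r K) * (q (K + 1) + r (K + 1))
        = (xx t r K + r K) * (t * (q (K + 1) + r (K + 1))) := by ring
    rw [← h2] at h4
    linear_combination h4

theorem xx_sq_le (t : ℝ) (ht : t ^ 2 = 1 / 2) (r : ℕ → ℝ) (k : ℕ) :
    xx t r k ^ 2 ≤ ∑ l ∈ Finset.range k, r l ^ 2 := by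
  induction k with
  | zero => simp [xx]
  | succ k ih =>
    rw [Finset.sum_range_succ]
    have h3 : xx t r (k + 1) = t * (xx t r k + r k) := rfl
    rw [h3, mul_pow, ht]
    nlinarith [sq_nonneg (xx t r k - r k)]

theorem xx_far (t : ℝ) (ht : t ^ 2 = 1 / 2) (r : ℕ → ℝ) (k₁ : ℕ) (hr : ∀ l, k₁ ≤ l → r l = 0)
    (m : ℕ) : xx t r (k₁ + m) ^ 2 = (1 / 2) ^ m * xx t r k₁ ^ 2 := by
  induction m with
  | zero => simp
  | succ m ih =>
    have h3 : xx t r (k₁ + (m + 1)) = t * (xx t r (k₁ + m) + r (k₁ + m)) := rfl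
    rw [h3, hr _ (by omega), add_zero, mul_pow, ih, ht, pow_succ]
    ring

theorem odd_sum (t : ℝ) (ht : t ^ 2 = 1 / 2) (k₁ K : ℕ) (q : ℕ → ℤ)
    (hpar : ∀ k, k ≤ K → q k ≠ 0 → (k + k₁) % 2 = 0)
    (hmax : ∀ k, k₁ < k → k ≤ K → q k = 0) (h3 : 3 ≤ k₁) (hK : k₁ ≤ K)
    (hodd : q k₁ % 2 ≠ 0) : 7 / 8 ≤ ∑ l ∈ Finset.range K, rx t k₁ K q l ^ 2 := by
  have h1 : ∀ l < k₁, (1 / 2 : ℝ) ^ (k₁ - l) ≤ rx t k₁ K q l ^ 2 := by
    intro l hl
    obtain ⟨z, hz⟩ := Sx_odd k₁ K q hpar hmax hK (k₁ - l - 1) l (by omega)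
    have h2 : Sx k₁ K q l ≠ 0 := by
      rw [hz]; omega
    have h4 : 1 ≤ (Sx k₁ K q l) ^ 2 := by
      have := Int.one_le_abs h2
      nlinarith [sq_abs (Sx k₁ K q l)]
    have h5 : (1 : ℝ) ≤ (Sx k₁ K q l : ℝ) ^ 2 := by exact_mod_cast h4
    unfold rx
    rw [mul_pow, ← pow_mul, mul_comm (k₁ - l) 2, pow_tt t ht]
    have h6 : (0 : ℝ) < (1 / 2) ^ (k₁ - l) := by positivity
    nlinarith
  have h2 : ∑ l ∈ Finset.range k₁, (1 / 2 : ℝ) ^ (k₁ - l) ≤ ∑ l ∈ Finset.range K,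
      rx t k₁ K q l ^ 2 := by
    refine (Finset.sum_le_sum fun l hl => h1 l (Finset.mem_range.1 hl)).trans ?_
    exact Finset.sum_le_sum_of_subset_of_nonneg (Finset.range_mono hK) fun _ _ _ => sq_nonneg _
  refine le_trans ?_ h2
  have h4 : ∀ n : ℕ, ∑ l ∈ Finset.range n, (1 / 2 : ℝ) ^ (n - l) = 1 - (1 / 2) ^ n := by
    intro n
    induction n with
    | zero => simp
    | succ n ih =>
      rw [Finset.sum_range_succ']
      simp only [Nat.add_sub_add_right, Nat.sub_zero]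
      rw [ih]
      ring
  rw [h4]
  have h5 : (1 / 2 : ℝ) ^ k₁ ≤ (1 / 2) ^ 3 :=
    pow_le_pow_of_le_one (by norm_num) (by norm_num) h3
  norm_num at h5 ⊢
  linarith

theorem even_sum (t : ℝ) (ht : t ^ 2 = 1 / 2) (k₁ K : ℕ) (q : ℕ → ℤ)
    (hmax : ∀ k, k₁ < k → k ≤ K → q k = 0) (h3 : 3 ≤ k₁) (hK : k₁ ≤ K)
    (hbig : 2 ≤ |q k₁|) : 2 ≤ ∑ l ∈ Finset.range K, rx t k₁ K q l ^ 2 := by
  have h1 : Sx k₁ K q (k₁ - 1) = q k₁ := by
    rw [Sx_step k₁ K q (k₁ - 1) (by omega), Sx_zero k₁ K q hmax (k₁ - 1 + 1) (by omega)]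
    have h1 : k₁ - 1 + 1 = k₁ := by omega
    rw [h1]
    simp
  have h2 : rx t k₁ K q (k₁ - 1) ^ 2 ≤ ∑ l ∈ Finset.range K, rx t k₁ K q l ^ 2 :=
    Finset.single_le_sum (f := fun l => rx t k₁ K q l ^ 2) (fun _ _ => sq_nonneg _)
      (Finset.mem_range.2 (by omega))
  refine le_trans ?_ h2
  unfold rx
  rw [h1, mul_pow, show k₁ - (k₁ - 1) = 1 by omega, pow_one, ht]
  have h4 : (4 : ℤ) ≤ q k₁ ^ 2 := by nlinarith [sq_abs (q k₁)]
  have h5 : (4 : ℝ) ≤ (q k₁ : ℝ) ^ 2 := by exact_mod_cast h4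
  linarith

/-- **The arms are isolated** (the arithmetic). -/
theorem arm_lemma (t c δ : ℝ) (ht0 : 0 < t) (ht : t ^ 2 = 1 / 2) (hc : c = 3 * t + δ)
    (hδ0 : 0 ≤ δ) (K k₁ : ℕ) (hk₁ : 3 ≤ k₁) (hK : k₁ + 4 ≤ K) (hδ : δ ≤ (1 / 2) ^ (K + 4))
    (q : Fin 3 → ℕ → ℤ) (hpar : ∀ i k, k ≤ K → q i k ≠ 0 → (k + k₁) % 2 = 0)
    (hmax : ∀ i k, k₁ < k → k ≤ K → q i k = 0) (hne : ∃ i, q i k₁ ≠ 0)
    (h : ∀ x : Fin 3 → ℕ → ℝ, (∀ i, x i 0 = x 0 0) →
      see K (fun i k => (q i k : ℝ)) x ^ 2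
        ≤ c * (c * nrm K x - frm K (fun _ _ => 1) x)) : False := by
  have ht1 : t ≤ 71 / 100 := by
    by_contra hcon
    push Not at hcon
    nlinarith
  have ht2 : 70 / 100 ≤ t := by
    by_contra hcon
    push Not at hcon
    nlinarith
  have ht3 : 707 / 1000 ≤ t := by
    by_contra hcon
    push Not at hcon
    nlinarith
  have hδ1 : δ ≤ (1 / 2) ^ 11 :=
    hδ.trans (pow_le_pow_of_le_one (by norm_num) (by norm_num) (by omega))
  have hc0 : 0 < c := by rw [hc]; positivity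
  -- first test
  have hZ : (q 0 0 * 2 ^ (k₁ / 2) + ∑ i, Sx k₁ K (q i) 0 : ℤ) = 0 := by
    by_contra hcon
    have h1 := h (fun _ k => t ^ k) (fun _ => rfl)
    have h2 : c * nrm K (fun _ k => t ^ k) - frm K (fun _ _ => 1) (fun _ k => t ^ k)
        = δ * nrm K (fun _ k => t ^ k) + 3 * t * (1 / 2) ^ K := by
      have h3 := form_sq t ht (fun _ k => t ^ k) (fun _ => rfl) K
      have h4 : ∀ k : ℕ, (2 * t * t ^ (k + 1) - t ^ k) ^ 2 = 0 := by
        intro k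
        have : 2 * t * t ^ (k + 1) - t ^ k = (2 * t ^ 2 - 1) * t ^ k := by ring
        rw [this, ht]; ring
      simp only [h4, Finset.sum_const_zero, Finset.sum_const, Finset.card_univ,
        Fintype.card_fin] at h3
      rw [← pow_mul, mul_comm K 2, pow_tt t ht] at h3
      rw [hc, add_mul]
      have h5 : (3 • (1 / 2 : ℝ) ^ K) = 3 * (1 / 2) ^ K := by simp
      rw [h5] at h3
      linarith
    have h5 : nrm K (fun _ k => t ^ k) ≤ 4 := by
      unfold nrm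
      simp only [Fin.sum_univ_three]
      have h6 : ∑ k ∈ Finset.range K, (t ^ (k + 1)) ^ 2 ≤ 1 := by
        have h7 : ∀ k : ℕ, (t ^ (k + 1)) ^ 2 = (1 / 2) * (1 / 2) ^ k := by
          intro k
          rw [← pow_mul, mul_comm (k + 1) 2, pow_tt t ht, pow_succ]; ring
        simp only [h7]
        rw [← Finset.mul_sum, TH57.Thr.geom_half]
        have : (0 : ℝ) < (1 / 2) ^ K := by positivity
        linarith
      norm_num
      linarith
    have h6 : see K (fun i k => (q i k : ℝ)) (fun _ k => t ^ k)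
        = t ^ k₁ * ((q 0 0 * 2 ^ (k₁ / 2) + ∑ i, Sx k₁ K (q i) 0 : ℤ) : ℝ) := by
      have h7 : ∀ i k, k ≤ K → (q i k : ℝ) * t ^ k = t ^ k₁ * ((q i k * 2 ^ ((k₁ - k) / 2) : ℤ) : ℝ) := by
        intro i k hk
        by_cases h8 : q i k = 0
        · rw [h8]; simp
        · have h9 := hpar i k hk h8
          have h10 : k ≤ k₁ := by
            by_contra h11
            exact h8 (hmax i k (by omega) hk)
          obtain ⟨m, hm⟩ : ∃ m, k₁ - k = 2 * m := ⟨(k₁ - k) / 2, by omega⟩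
          have h11 : k₁ = k + 2 * m := by omega
          rw [hm, Nat.mul_div_cancel_left m two_pos, h11, pow_add, pow_tt t ht]
          push_cast
          have h4 := half_pow_mul m
          linear_combination (-(q i k : ℝ) * t ^ k) * h4
      unfold see
      rw [h7 0 0 (Nat.zero_le _), Nat.sub_zero]
      have h8 : ∀ i, ∑ k ∈ Finset.range K, (q i (k + 1) : ℝ) * t ^ (k + 1)
          = t ^ k₁ * ((Sx k₁ K (q i) 0 : ℤ) : ℝ) := by
        intro i
        unfold Sx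
        rw [Finset.filter_true_of_mem (fun k _ => Nat.zero_le k), Int.cast_sum, Finset.mul_sum]
        exact Finset.sum_congr rfl fun k hk => h7 i (k + 1) (by
          have := Finset.mem_range.1 hk; omega)
      simp only [h8]
      rw [← Finset.mul_sum, ← mul_add]
      push_cast
      ring
    rw [h6, h2, mul_pow, ← pow_mul, mul_comm k₁ 2, pow_tt t ht] at h1
    have h7 : (1 : ℝ) ≤ ((q 0 0 * 2 ^ (k₁ / 2) + ∑ i, Sx k₁ K (q i) 0 : ℤ) : ℝ) ^ 2 := by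
      have h8 := Int.one_le_abs hcon
      have h9 : 1 ≤ (q 0 0 * 2 ^ (k₁ / 2) + ∑ i, Sx k₁ K (q i) 0 : ℤ) ^ 2 := by
        nlinarith [sq_abs (q 0 0 * 2 ^ (k₁ / 2) + ∑ i, Sx k₁ K (q i) 0 : ℤ)]
      exact_mod_cast h9
    have h8 : 16 * (1 / 2 : ℝ) ^ K ≤ (1 / 2) ^ k₁ := by
      obtain ⟨m, rfl⟩ : ∃ m, K = k₁ + 4 + m := ⟨K - (k₁ + 4), by omega⟩
      rw [pow_add, pow_add]
      have h9 : (1 / 2 : ℝ) ^ m ≤ 1 := pow_le_one₀ (by norm_num) (by norm_num)
      have h10 : (0 : ℝ) < (1 / 2) ^ k₁ := by positivity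
      nlinarith
    have h9 : (1 / 2 : ℝ) ^ k₁ ≤ c * (δ * nrm K (fun _ k => t ^ k) + 3 * t * (1 / 2) ^ K) := by
      refine le_trans ?_ h1
      have h10 : (0 : ℝ) < (1 / 2) ^ k₁ := by positivity
      nlinarith
    have h10 : δ * nrm K (fun _ k => t ^ k) ≤ 4 * δ := by nlinarith
    have h11 : (0 : ℝ) < (1 / 2) ^ K := by positivity
    have h12 : δ ≤ (1 / 16) * (1 / 2) ^ K := by
      refine hδ.trans (le_of_eq ?_)
      rw [pow_add]; ring
    have h13 : c ≤ 3 := by rw [hc]; norm_num at hδ1; linarith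
    have h14 : δ * nrm K (fun _ k => t ^ k) + 3 * t * (1 / 2) ^ K ≤ 3 * (1 / 2) ^ K := by
      nlinarith
    have h15 : c * (δ * nrm K (fun _ k => t ^ k) + 3 * t * (1 / 2) ^ K)
        ≤ 3 * (3 * (1 / 2) ^ K) := by
      refine le_trans (mul_le_mul_of_nonneg_left h14 hc0.le) ?_
      exact mul_le_mul_of_nonneg_right h13 (by positivity)
    linarith
  -- second test
  set r : Fin 3 → ℕ → ℝ := fun i => rx t k₁ K (q i) with hr
  set x : Fin 3 → ℕ → ℝ := fun i => xx t (r i) with hx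
  set R : Fin 3 → ℝ := fun i => ∑ l ∈ Finset.range K, r i l ^ 2 with hR
  have hR0 : ∀ i, 0 ≤ R i := fun i => Finset.sum_nonneg fun _ _ => sq_nonneg _
  have hx0 : ∀ i, x i 0 = 0 := fun _ => rfl
  have hrz : ∀ i l, k₁ ≤ l → r i l = 0 := by
    intro i l hl
    simp only [hr, rx]
    rw [Sx_zero k₁ K (q i) (hmax i) l hl]
    simp
  have h1 := h x (fun i => by rw [hx0, hx0])
  have h2 : see K (fun i k => (q i k : ℝ)) x = ∑ i, R i := by
    unfold see
    rw [hx0, mul_zero, zero_add]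
    refine Finset.sum_congr rfl fun i _ => ?_
    have h3 := xx_pair t (fun k => (q i k : ℝ)) (r i) K
      (fun l hl => rx_step t ht k₁ K (q i) (hpar i) (hmax i) l hl)
    rw [hrz i K (by omega), mul_zero, add_zero] at h3
    exact h3
  have h3 := form_sq t ht x (fun i => by rw [hx0, hx0]) K
  have h4 : ∀ i k, (2 * t * x i (k + 1) - x i k) ^ 2 = r i k ^ 2 := by
    intro i k
    have h5 : x i (k + 1) = t * (x i k + r i k) := rfl
    have h6 : 2 * t * x i (k + 1) - x i k = r i k := by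
      rw [h5]
      linear_combination (2 * (x i k + r i k)) * ht
    rw [h6]
  simp only [h4] at h3
  have hXK : ∀ i, x i K ^ 2 ≤ (1 / 16) * R i := by
    intro i
    obtain ⟨m, rfl⟩ : ∃ m, K = k₁ + 4 + m := ⟨K - (k₁ + 4), by omega⟩
    have h5 := xx_far t ht (r i) k₁ (hrz i) (4 + m)
    have h6 : x i (k₁ + 4 + m) ^ 2 = (1 / 2) ^ (4 + m) * x i k₁ ^ 2 := by
      rw [add_assoc]; exact h5
    rw [h6]
    have h7 := xx_sq_le t ht (r i) k₁
    have h8 : ∑ l ∈ Finset.range k₁, r i l ^ 2 ≤ R i :=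
      Finset.sum_le_sum_of_subset_of_nonneg (Finset.range_mono (by omega)) fun _ _ _ => sq_nonneg _
    have h9 : (1 / 2 : ℝ) ^ (4 + m) ≤ 1 / 16 := by
      calc (1 / 2 : ℝ) ^ (4 + m) ≤ (1 / 2) ^ 4 :=
            pow_le_pow_of_le_one (by norm_num) (by norm_num) (by omega)
        _ = 1 / 16 := by norm_num
    calc (1 / 2 : ℝ) ^ (4 + m) * x i k₁ ^ 2 ≤ (1 / 16) * x i k₁ ^ 2 :=
          mul_le_mul_of_nonneg_right h9 (sq_nonneg _)
      _ ≤ (1 / 16) * R i := by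
          refine mul_le_mul_of_nonneg_left (le_trans h7 h8) (by norm_num)
  set RR := ∑ i, R i with hRR
  have hRR3 : RR = R 0 + R 1 + R 2 := by rw [hRR, Fin.sum_univ_three]
  have hXX : ∑ i, x i K ^ 2 ≤ (1 / 16) * RR := by
    rw [hRR, Finset.mul_sum]
    exact Finset.sum_le_sum fun i _ => hXK i
  have hf := frm_le x hx0 K
  have hn0 : 0 ≤ nrm K x := by
    unfold nrm
    exact add_nonneg (sq_nonneg _) (Finset.sum_nonneg fun _ _ =>
      Finset.sum_nonneg fun _ _ => sq_nonneg _)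
  have hRRn : 0 ≤ RR := by rw [hRR3]; linarith [hR0 0, hR0 1, hR0 2]
  have hn : nrm K x ≤ 7 * RR := by nlinarith
  rw [h2] at h1
  have h5 : c * nrm K x - frm K (fun _ _ => 1) x ≤ (7 * δ + 17 / 16 * t) * RR := by
    rw [hc, add_mul]
    nlinarith
  have h6 : RR ^ 2 ≤ c * ((7 * δ + 17 / 16 * t) * RR) :=
    h1.trans (mul_le_mul_of_nonneg_left h5 hc0.le)
  -- the lower bound
  have h7 : 7 / 4 ≤ RR := by
    have hev : (q 0 k₁ + q 1 k₁ + q 2 k₁) % 2 = 0 := by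
      rw [Fin.sum_univ_three] at hZ
      obtain ⟨z0, hz0⟩ := Sx_odd k₁ K (q 0) (hpar 0) (hmax 0) (by omega) (k₁ - 1) 0 (by omega)
      obtain ⟨z1, hz1⟩ := Sx_odd k₁ K (q 1) (hpar 1) (hmax 1) (by omega) (k₁ - 1) 0 (by omega)
      obtain ⟨z2, hz2⟩ := Sx_odd k₁ K (q 2) (hpar 2) (hmax 2) (by omega) (k₁ - 1) 0 (by omega)
      have h8 : k₁ / 2 = k₁ / 2 - 1 + 1 := by omega
      rw [hz0, hz1, hz2, h8, pow_succ] at hZ
      have h9 : q 0 0 * (2 ^ (k₁ / 2 - 1) * 2) = 2 * (q 0 0 * 2 ^ (k₁ / 2 - 1)) := by ring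
      rw [h9] at hZ
      omega
    by_cases hbig : ∃ i, 2 ≤ |q i k₁|
    · obtain ⟨i, hi⟩ := hbig
      have h8 : 2 ≤ R i := even_sum t ht k₁ K (q i) (hmax i) hk₁ (by omega) hi
      have h9 : R i ≤ RR := Finset.single_le_sum (f := R) (fun i _ => hR0 i) (Finset.mem_univ i)
      linarith
    · push Not at hbig
      have ho : ∀ i, q i k₁ ≠ 0 → 7 / 8 ≤ R i := by
        intro i hi
        refine odd_sum t ht k₁ K (q i) (hpar i) (hmax i) hk₁ (by omega) ?_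
        have := hbig i
        rw [abs_lt] at this
        omega
      have hb0 := abs_lt.1 (hbig 0)
      have hb1 := abs_lt.1 (hbig 1)
      have hb2 := abs_lt.1 (hbig 2)
      have hne' : q 0 k₁ ≠ 0 ∨ q 1 k₁ ≠ 0 ∨ q 2 k₁ ≠ 0 := by
        obtain ⟨i, hi⟩ := hne
        fin_cases i
        · exact Or.inl hi
        · exact Or.inr (Or.inl hi)
        · exact Or.inr (Or.inr hi)
      have h8 : (q 0 k₁ ≠ 0 ∧ q 1 k₁ ≠ 0) ∨ (q 0 k₁ ≠ 0 ∧ q 2 k₁ ≠ 0)
          ∨ (q 1 k₁ ≠ 0 ∧ q 2 k₁ ≠ 0) := by omega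
      rw [hRR3]
      rcases h8 with ⟨h9, h10⟩ | ⟨h9, h10⟩ | ⟨h9, h10⟩
      · linarith [ho _ h9, ho _ h10, hR0 2]
      · linarith [ho _ h9, ho _ h10, hR0 1]
      · linarith [ho _ h9, ho _ h10, hR0 0]
  have h8 : RR ≤ c * (7 * δ + 17 / 16 * t) := by
    have h9 : 0 < RR := by linarith
    have h10 : RR * RR ≤ (c * (7 * δ + 17 / 16 * t)) * RR := by nlinarith
    exact le_of_mul_le_mul_right h10 h9
  have h9 : c * (7 * δ + 17 / 16 * t) ≤ 17 / 10 := by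
    rw [hc]
    have h10 : (3 * t + δ) * (7 * δ + 17 / 16 * t)
        = 51 / 16 * t ^ 2 + δ * (21 * t + 17 / 16 * t + 7 * δ) := by ring
    rw [h10, ht]
    norm_num at hδ1
    nlinarith
  linarith

end Pool.Agent.Q181.LW
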