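import Pool.Agent.Q181.LW.Sub3
import Pool.Agent.Y75.Th.Norm

set_option autoImplicit false
set_option linter.unusedSectionVars false

/-! The edges of a matrix over a group ring. -/

namespace Pool.Agent.Q181.LW

open Matrix TH57.Thr TH6.LF
open Pool.Agent.Y75.Th (nsq nsq_eq nsq_bar nsq_nonneg NormLE_adj normSq_row normSq_single N)

variable {G : Type} [Group G] {κ : Type} [Fintype κ] [DecidableEq κ]

theorem row_four (A : Matrix κ κ (MonoidAlgebra ℤ G)) (c : ℝ) (hA : NormLE A c)
    (hc : c ^ 2 < 5) (i : κ) : ∑ j, nsq (A i j) ≤ 4 := by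
  have h1 := hA (Pi.single i 1)
  rw [normSq_row, normSq_single, mul_one] at h1
  have h2 : ((N (fun j => A i j) : ℤ) : ℝ) < ((5 : ℤ) : ℝ) := by
    push_cast
    exact h1.trans_lt hc
  have h3 := Int.cast_lt.1 h2
  have h4 : N (fun j => A i j) = ∑ j, nsq (A i j) := rfl
  omega

theorem col_four (A : Matrix κ κ (MonoidAlgebra ℤ G)) (c : ℝ) (hc0 : 0 < c) (hA : NormLE A c)
    (hc : c ^ 2 < 5) (j : κ) : ∑ i, nsq (A i j) ≤ 4 := by
  have h1 := row_four (adj A) c (NormLE_adj A c hc0 hA) hc j
  refine le_trans (le_of_eq (Finset.sum_congr rfl fun i _ => ?_)) h1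
  rw [adj_apply, nsq_bar]

/-- the edges -/
def Ed (A : Matrix κ κ (MonoidAlgebra ℤ G)) : Type :=
  Σ p : κ × κ, Σ g : {g : G // g ∈ (A p.1 p.2).coeff.support},
    Fin ((A p.1 p.2).coeff g.1).natAbs

instance (A : Matrix κ κ (MonoidAlgebra ℤ G)) : Fintype (Ed A) := by
  unfold Ed; infer_instance

variable (A : Matrix κ κ (MonoidAlgebra ℤ G))

def Ed.s (e : Ed A) : κ := e.1.1

def Ed.t (e : Ed A) : κ := e.1.2

noncomputable def Ed.z (e : Ed A) : MonoidAlgebra ℤ G :=
  MonoidAlgebra.single e.2.1.1 ((A e.1.1 e.1.2).coeff e.2.1.1).sign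

theorem Ed.mono (e : Ed A) : Mono (Ed.z A e) := by
  have h1 := Finsupp.mem_support_iff.1 e.2.1.2
  refine Or.inr ⟨e.2.1.1, ?_⟩
  unfold Ed.z
  rcases lt_or_gt_of_ne h1 with h | h
  · right; rw [Int.sign_eq_neg_one_of_neg h]
  · left; rw [Int.sign_eq_one_of_pos h]

theorem sum_Ed {M : Type*} [AddCommMonoid M] (F : Ed A → M) :
    ∑ e, F e = ∑ p : κ × κ, ∑ g : {g : G // g ∈ (A p.1 p.2).coeff.support},
      ∑ k : Fin ((A p.1 p.2).coeff g.1).natAbs, F ⟨p, g, k⟩ := by
  have h1 : ∑ e, F e = ∑ p : κ × κ, ∑ x : (Σ g : {g : G // g ∈ (A p.1 p.2).coeff.support},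
    Fin ((A p.1 p.2).coeff g.1).natAbs), F ⟨p, x⟩ := Fintype.sum_sigma F
  rw [h1]
  exact Finset.sum_congr rfl fun p _ => Fintype.sum_sigma _

theorem Ed.isSum : A = ∑ e, Matrix.single (Ed.s A e) (Ed.t A e) (Ed.z A e) := by
  classical
  rw [sum_Ed]
  conv_lhs => rw [Matrix.matrix_eq_sum_single A]
  rw [Fintype.sum_prod_type]
  refine Finset.sum_congr rfl fun i _ => Finset.sum_congr rfl fun j _ => ?_
  have h1 : ∀ g : {g : G // g ∈ (A i j).coeff.support},
      ∑ k : Fin ((A i j).coeff g.1).natAbs,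
        Matrix.single (Ed.s A ⟨(i, j), g, k⟩) (Ed.t A ⟨(i, j), g, k⟩) (Ed.z A ⟨(i, j), g, k⟩)
      = Matrix.single i j (MonoidAlgebra.single g.1 ((A i j).coeff g.1)) := by
    intro g
    have h2 : ∀ k, Matrix.single (Ed.s A ⟨(i, j), g, k⟩) (Ed.t A ⟨(i, j), g, k⟩)
        (Ed.z A ⟨(i, j), g, k⟩) = Matrix.single i j
          (MonoidAlgebra.single g.1 ((A i j).coeff g.1).sign) := fun _ => rfl
    simp only [h2]
    rw [Finset.sum_const, Finset.card_univ, Fintype.card_fin, Matrix.smul_single,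
      MonoidAlgebra.smul_single, nsmul_eq_mul, mul_comm, Int.sign_mul_natAbs]
  simp only [h1]
  rw [Finset.sum_coe_sort (A i j).coeff.support
    (fun g => Matrix.single i j (MonoidAlgebra.single g ((A i j).coeff g)))]
  have h3 : ∑ g ∈ (A i j).coeff.support, Matrix.single i j
      (MonoidAlgebra.single g ((A i j).coeff g))
      = Matrix.single i j (∑ g ∈ (A i j).coeff.support,
        MonoidAlgebra.single g ((A i j).coeff g)) := by
    induction (A i j).coeff.support using Finset.induction_on with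
    | empty => simp
    | insert a s ha ih => rw [Finset.sum_insert ha, Finset.sum_insert ha, ih, ← Matrix.single_add]
  rw [h3]
  congr 1
  ext h
  rw [MonoidAlgebra.coeff_sum, Finsupp.finsetSum_apply]
  by_cases h4 : h ∈ (A i j).coeff.support
  · rw [Finset.sum_eq_single h]
    · simp
    · intro g _ hg
      simp [hg]
    · intro h; exact absurd h4 h
  · rw [Finsupp.notMem_support_iff.1 h4, Finset.sum_eq_zero]
    intro g hg
    have : g ≠ h := by rintro rfl; exact h4 hg
    simp [this]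

theorem natAbs_sum_le (x : MonoidAlgebra ℤ G) :
    ((∑ g : {g : G // g ∈ x.coeff.support}, (x.coeff g.1).natAbs : ℕ) : ℤ) ≤ nsq x := by
  rw [Finset.sum_coe_sort x.coeff.support (fun g => (x.coeff g).natAbs),
    nsq_eq x x.coeff.support le_rfl, Nat.cast_sum]
  refine Finset.sum_le_sum fun g _ => ?_
  rw [Int.natCast_natAbs]
  rcases eq_or_ne (x.coeff g) 0 with h | h
  · rw [h]; simp
  · have h4 := Int.one_le_abs h
    nlinarith [sq_abs (x.coeff g)]

theorem Ed.card_s (i : κ) (h : ∑ j, nsq (A i j) ≤ 4) :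
    (Finset.univ.filter fun e => Ed.s A e = i).card ≤ 4 := by
  rw [Finset.card_filter, sum_Ed, Fintype.sum_prod_type, Finset.sum_eq_single i]
  · have h1 : ∀ j : κ, ∑ g : {g : G // g ∈ (A i j).coeff.support},
        ∑ k : Fin ((A i j).coeff g.1).natAbs, (if Ed.s A ⟨(i, j), g, k⟩ = i then 1 else 0)
        = ∑ g : {g : G // g ∈ (A i j).coeff.support}, ((A i j).coeff g.1).natAbs := by
      intro j
      refine Finset.sum_congr rfl fun g _ => ?_
      have h2 : ∀ k, (if Ed.s A ⟨(i, j), g, k⟩ = i then 1 else 0) = 1 := fun k => if_pos rfl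
      simp [h2]
    simp only [h1]
    have h3 : ((∑ j, ∑ g : {g : G // g ∈ (A i j).coeff.support},
        ((A i j).coeff g.1).natAbs : ℕ) : ℤ) ≤ 4 := by
      refine le_trans ?_ h
      rw [Nat.cast_sum]
      exact Finset.sum_le_sum fun j _ => natAbs_sum_le (A i j)
    exact_mod_cast h3
  · intro i' _ hi'
    refine Finset.sum_eq_zero fun j _ => Finset.sum_eq_zero fun g _ => Finset.sum_eq_zero
      fun k _ => ?_
    exact if_neg hi'
  · intro h; exact absurd (Finset.mem_univ _) h

theorem Ed.card_t (j : κ) (h : ∑ i, nsq (A i j) ≤ 4) :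
    (Finset.univ.filter fun e => Ed.t A e = j).card ≤ 4 := by
  rw [Finset.card_filter, sum_Ed, Fintype.sum_prod_type, Finset.sum_comm,
    Finset.sum_eq_single j]
  · have h1 : ∀ i : κ, ∑ g : {g : G // g ∈ (A i j).coeff.support},
        ∑ k : Fin ((A i j).coeff g.1).natAbs, (if Ed.t A ⟨(i, j), g, k⟩ = j then 1 else 0)
        = ∑ g : {g : G // g ∈ (A i j).coeff.support}, ((A i j).coeff g.1).natAbs := by
      intro i
      refine Finset.sum_congr rfl fun g _ => ?_
      have h2 : ∀ k, (if Ed.t A ⟨(i, j), g, k⟩ = j then 1 else 0) = 1 := fun k => if_pos rfl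
      simp [h2]
    simp only [h1]
    have h3 : ((∑ i, ∑ g : {g : G // g ∈ (A i j).coeff.support},
        ((A i j).coeff g.1).natAbs : ℕ) : ℤ) ≤ 4 := by
      refine le_trans ?_ h
      rw [Nat.cast_sum]
      exact Finset.sum_le_sum fun i _ => natAbs_sum_le (A i j)
    exact_mod_cast h3
  · intro j' _ hj'
    refine Finset.sum_eq_zero fun i _ => Finset.sum_eq_zero fun g _ => Finset.sum_eq_zero
      fun k _ => ?_
    exact if_neg hj'
  · intro h; exact absurd (Finset.mem_univ _) h

/-- halving fibres -/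
theorem halve {E : Type} [Fintype E] (f : E → κ)
    (hf : ∀ i, (Finset.univ.filter fun e => f e = i).card ≤ 4) :
    ∃ α : E → Fin 2, ∀ i a, (Finset.univ.filter fun e => f e = i ∧ α e = a).card ≤ 2 := by
  classical
  let T : κ → Finset E := fun i => Finset.univ.filter fun e => f e = i
  have hmem : ∀ e, e ∈ T (f e) := fun e => Finset.mem_filter.2 ⟨Finset.mem_univ _, rfl⟩
  let idx : E → ℕ := fun e => ((T (f e)).equivFin ⟨e, hmem e⟩ : ℕ)
  have hidx : ∀ e, idx e < 4 := fun e => lt_of_lt_of_le (Fin.is_lt _) (hf (f e))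
  have hinj : ∀ e e', f e = f e' → idx e = idx e' → e = e' := by
    intro e e' h1 h2
    have key : ∀ i (h : f e = i) (h' : f e' = i),
        (((T i).equivFin ⟨e, by rw [← h]; exact hmem e⟩ : Fin _) : ℕ)
          = ((T i).equivFin ⟨e', by rw [← h']; exact hmem e'⟩ : Fin _) → e = e' := by
      intro i _ _ h5
      have := (T i).equivFin.injective (Fin.ext h5)
      exact congrArg Subtype.val this
    refine key (f e') h1 rfl ?_
    have h3 : ∀ i (h : f e = i), idx e
        = (((T i).equivFin ⟨e, by rw [← h]; exact hmem e⟩ : Fin _) : ℕ) := by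
      rintro i rfl
      rfl
    rw [← h3 (f e') h1]
    exact h2
  refine ⟨fun e => ⟨idx e / 2, by have := hidx e; omega⟩, fun i a => ?_⟩
  have h1 : (Finset.univ.filter fun e => f e = i ∧
      (⟨idx e / 2, by have := hidx e; omega⟩ : Fin 2) = a).card
      ≤ ({2 * (a : ℕ), 2 * (a : ℕ) + 1} : Finset ℕ).card := by
    apply Finset.card_le_card_of_injOn idx
    · intro e he
      have he := (Finset.mem_filter.1 he).2.2
      have := congrArg Fin.val he
      simp only at this
      simp only [Finset.coe_insert, Finset.coe_singleton, Set.mem_insert_iff,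
        Set.mem_singleton_iff]
      omega
    · intro e he e' he' h
      have he := (Finset.mem_filter.1 he).2.1
      have he' := (Finset.mem_filter.1 he').2.1
      exact hinj e e' (by rw [he, he']) h
  exact h1.trans Finset.card_le_two

end Pool.Agent.Q181.LW
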