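import Pool.Agent.TH57.Thr.Tri

set_option autoImplicit false
set_option linter.unusedSectionVars false

/-! The quadratic form of a weighted graph on an induced tripod and on one further vertex. -/

namespace Pool.Agent.Q181.LW

open TH57.Thr

/-- an induced tripod of a weight function -/
structure TriData {V : Type*} (W : V → V → ℝ) (N : ℕ) (a : Fin 3 → ℕ → V) (o : V) : Prop where
  h0 : ∀ i, a i 0 = o
  hinj : ∀ i j k l, k ≤ N → l ≤ N → a i k = a j l → (k = 0 ∧ l = 0) ∨ (i = j ∧ k = l)
  hW0 : ∀ i k l, k ≤ N → l ≤ N → k + 1 ≠ l → l + 1 ≠ k → W (a i k) (a i l) = 0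
  hWc : ∀ i j k l, i ≠ j → 1 ≤ k → k ≤ N → 1 ≤ l → l ≤ N → W (a i k) (a j l) = 0
  hW1 : ∀ i k, k < N → 1 ≤ |W (a i k) (a i (k + 1))|

theorem TriData.mono {V : Type*} {W : V → V → ℝ} {N K : ℕ} {a : Fin 3 → ℕ → V} {o : V}
    (h : TriData W N a o) (hK : K ≤ N) : TriData W K a o :=
  ⟨h.h0, fun i j k l h1 h2 => h.hinj i j k l (h1.trans hK) (h2.trans hK),
    fun i k l h1 h2 => h.hW0 i k l (h1.trans hK) (h2.trans hK),
    fun i j k l hij h1 h2 h3 h4 => h.hWc i j k l hij h1 (h2.trans hK) h3 (h4.trans hK),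
    fun i k hk => h.hW1 i k (hk.trans_le hK)⟩

/-- the quadratic form along an injective family of vertices -/
theorem quad_inj {V ω : Type*} [DecidableEq V] [Fintype ω] (W : V → V → ℝ) (c : ℝ)
    (hc : ∀ (s : Finset V) (f : V → ℝ),
      ∑ u ∈ s, ∑ v ∈ s, W u v * f u * f v ≤ c * ∑ u ∈ s, f u ^ 2)
    (τ : ω → V) (hτ : Function.Injective τ) (F : ω → ℝ) :
    ∑ p, ∑ q, W (τ p) (τ q) * F p * F q ≤ c * ∑ p, F p ^ 2 := by
  classical
  let s : Finset V := Finset.univ.image τ
  let f : V → ℝ := fun v => ∑ p, if τ p = v then F p else 0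
  have hf : ∀ p, f (τ p) = F p := by
    intro p
    simp only [f]
    rw [Finset.sum_eq_single p]
    · simp
    · intro q _ hq
      rw [if_neg (fun h => hq (hτ h))]
    · simp
  have hsum : ∀ g : V → ℝ, ∑ u ∈ s, g u = ∑ p, g (τ p) := by
    intro g
    simp only [s]
    rw [Finset.sum_image (fun x _ y _ h => hτ h)]
  have h1 := hc s f
  rw [hsum, hsum] at h1
  simp only [hf, hsum] at h1
  exact h1

/-- the squared norm of a function on the tripod -/
noncomputable def nrm (K : ℕ) (h : Fin 3 → ℕ → ℝ) : ℝ :=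
  h 0 0 ^ 2 + ∑ i, ∑ k ∈ Finset.range K, h i (k + 1) ^ 2

/-- the form on the tripod -/
noncomputable def frm (K : ℕ) (w h : Fin 3 → ℕ → ℝ) : ℝ :=
  2 * ∑ i, ∑ k ∈ Finset.range K, w i k * h i k * h i (k + 1)

/-- a vertex seen from the tripod -/
noncomputable def see (K : ℕ) (q h : Fin 3 → ℕ → ℝ) : ℝ :=
  q 0 0 * h 0 0 + ∑ i, ∑ k ∈ Finset.range K, q i (k + 1) * h i (k + 1)

variable {V : Type*} [DecidableEq V] (W : V → V → ℝ) (hsymm : ∀ u v, W u v = W v u)
  {K : ℕ} {a : Fin 3 → ℕ → V} {o : V} (hT : TriData W K a o)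

include hsymm hT

/-- the form on the tripod -/
theorem tri_form (h : Fin 3 → ℕ → ℝ) (hh : ∀ i, h i 0 = h 0 0) :
    ∑ p : Option (Fin 3 × Fin K), ∑ q : Option (Fin 3 × Fin K),
      W (p.elim o (fun q => a q.1 (q.2 + 1))) (q.elim o (fun q => a q.1 (q.2 + 1)))
        * p.elim (h 0 0) (fun q => h q.1 (q.2 + 1)) * q.elim (h 0 0) (fun q => h q.1 (q.2 + 1))
      = frm K (fun i k => W (a i k) (a i (k + 1))) h := by
  classical
  obtain ⟨h0, hinj, hW0, hWc, hW1⟩ := hT
  set w : Fin 3 → ℕ → ℝ := fun i k => W (a i k) (a i (k + 1)) with hw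
  let τ : Option (Fin 3 × Fin K) → V := fun p => p.elim o (fun q => a q.1 (q.2 + 1))
  let F : Option (Fin 3 × Fin K) → ℝ := fun p => p.elim (h 0 0) (fun q => h q.1 (q.2 + 1))
  change ∑ p, ∑ q, W (τ p) (τ q) * F p * F q = _
  have hcen : ∑ q, W (τ none) (τ q) * F none * F q
      = ∑ i : Fin 3, if 0 < K then w i 0 * h i 0 * h i 1 else 0 := by
    rw [Fintype.sum_option, Fintype.sum_prod_type]
    have h1 : W (τ none) (τ none) = 0 := by
      have := hW0 0 0 0 (by omega) (by omega) (by omega) (by omega)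
      rw [h0] at this
      exact this
    rw [h1]
    simp only [zero_mul, zero_add]
    refine Finset.sum_congr rfl fun i _ => ?_
    simp only [τ, F, Option.elim]
    rw [Fin.sum_univ_eq_sum_range (fun k => W o (a i (k + 1)) * h 0 0 * h i (k + 1)) K]
    split_ifs with hN
    · rw [Finset.sum_eq_single 0]
      · simp only [hw, hh i, h0, zero_add]
      · intro k hk hk0
        rw [← h0 i, hW0 i 0 (k + 1) (by omega) (by have := Finset.mem_range.1 hk; omega)
          (by omega) (by omega)]
        ring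
      · intro h
        exact absurd (Finset.mem_range.2 hN) h
    · have : K = 0 := by omega
      subst this
      simp
  have harm : ∀ i : Fin 3, ∀ k : Fin K,
      ∑ q, W (τ (some (i, k))) (τ q) * F (some (i, k)) * F q
      = w i k * h i k * h i (k + 1)
        + (if (k : ℕ) + 1 < K then w i (k + 1) * h i (k + 1) * h i (k + 2) else 0) := by
    intro i k
    rw [Fintype.sum_option, Fintype.sum_prod_type]
    have h1 : ∑ j : Fin 3, ∑ l : Fin K,
        W (τ (some (i, k))) (τ (some (j, l))) * F (some (i, k)) * F (some (j, l))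
        = ∑ l : Fin K, W (τ (some (i, k))) (τ (some (i, l))) * F (some (i, k)) * F (some (i, l)) := by
      rw [Finset.sum_eq_single i]
      · intro j _ hj
        refine Finset.sum_eq_zero fun l _ => ?_
        simp only [τ, Option.elim]
        rw [hWc i j (k + 1) (l + 1) (Ne.symm hj) (by omega) (by omega) (by omega) (by omega)]
        ring
      · simp
    rw [h1]
    simp only [τ, F, Option.elim]
    rw [Fin.sum_univ_eq_sum_range
      (fun l => W (a i (k + 1)) (a i (l + 1)) * h i (k + 1) * h i (l + 1)) K]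
    have h2 : W (a i (k + 1)) o * h i (k + 1) * h 0 0
        + ∑ l ∈ Finset.range K, W (a i (k + 1)) (a i (l + 1)) * h i (k + 1) * h i (l + 1)
        = ∑ l ∈ Finset.range (K + 1), W (a i (k + 1)) (a i l) * h i (k + 1) * h i l := by
      rw [Finset.sum_range_succ', h0, hh i]
      ring
    rw [h2]
    have hk := k.2
    split_ifs with hkN
    · rw [Finset.sum_eq_add (k : ℕ) ((k : ℕ) + 2) (by omega)]
      · simp only [hw]
        rw [hsymm (a i (k + 1)) (a i k)]
        ring
      · rintro l hl ⟨h3, h4⟩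
        rw [hW0 i (k + 1) l (by omega) (by have := Finset.mem_range.1 hl; omega) (by omega)
          (by omega)]
        ring
      · intro h
        exact absurd (Finset.mem_range.2 (by omega)) h
      · intro h
        exact absurd (Finset.mem_range.2 (by omega)) h
    · rw [Finset.sum_eq_single (k : ℕ)]
      · simp only [hw]
        rw [hsymm (a i (k + 1)) (a i k)]
        ring
      · intro l hl h3
        rw [hW0 i (k + 1) l (by omega) (by have := Finset.mem_range.1 hl; omega)
          (by have := Finset.mem_range.1 hl; omega) (by omega)]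
        ring
      · intro h
        exact absurd (Finset.mem_range.2 (by omega)) h
  rw [Fintype.sum_option, Fintype.sum_prod_type, hcen]
  simp only [harm]
  rw [← Finset.sum_add_distrib, frm, Finset.mul_sum]
  refine Finset.sum_congr rfl fun i _ => ?_
  rw [Finset.sum_add_distrib]
  rw [Fin.sum_univ_eq_sum_range (fun k => w i k * h i k * h i (k + 1)) K]
  rw [Fin.sum_univ_eq_sum_range
    (fun k => if k + 1 < K then w i (k + 1) * h i (k + 1) * h i (k + 2) else 0) K]
  have h3 : (if 0 < K then w i 0 * h i 0 * h i 1 else 0)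
      + ∑ k ∈ Finset.range K, (if k + 1 < K then w i (k + 1) * h i (k + 1) * h i (k + 2) else 0)
      = ∑ k ∈ Finset.range (K + 1), (if k < K then w i k * h i k * h i (k + 1) else 0) := by
    rw [Finset.sum_range_succ']
    rw [add_comm]
  have h4 : ∑ k ∈ Finset.range (K + 1), (if k < K then w i k * h i k * h i (k + 1) else 0)
      = ∑ k ∈ Finset.range K, w i k * h i k * h i (k + 1) := by
    rw [Finset.sum_range_succ, if_neg (lt_irrefl K), add_zero]
    exact Finset.sum_congr rfl fun k hk => by rw [if_pos (Finset.mem_range.1 hk)]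
  linarith [h3, h4]

theorem tri_inj : Function.Injective
    (fun p : Option (Fin 3 × Fin K) => p.elim o (fun q => a q.1 (q.2 + 1))) := by
  obtain ⟨h0, hinj, hW0, hWc, hW1⟩ := hT
  intro p q h
  rcases p with _ | ⟨i, k⟩ <;> rcases q with _ | ⟨j, l⟩
  · rfl
  · exfalso
    simp only [Option.elim] at h
    rw [← h0 j] at h
    rcases hinj j j 0 (l + 1) (by omega) (by omega) h with h | h <;> omega
  · exfalso
    simp only [Option.elim] at h
    rw [← h0 i] at h
    rcases hinj i i (k + 1) 0 (by omega) (by omega) h with h | h <;> omega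
  · simp only [Option.elim] at h
    rcases hinj i j (k + 1) (l + 1) (by omega) (by omega) h with h | h
    · omega
    · obtain ⟨rfl, h2⟩ := h
      congr 2
      ext
      omega

/-- **the basic inequality on the tripod** -/
theorem tri_le (c : ℝ)
    (hc : ∀ (s : Finset V) (f : V → ℝ),
      ∑ u ∈ s, ∑ v ∈ s, W u v * f u * f v ≤ c * ∑ u ∈ s, f u ^ 2)
    (h : Fin 3 → ℕ → ℝ) (hh : ∀ i, h i 0 = h 0 0) :
    frm K (fun i k => W (a i k) (a i (k + 1))) h ≤ c * nrm K h := by
  classical
  have h1 := quad_inj W c hc _ (tri_inj W hsymm hT)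
    (fun p : Option (Fin 3 × Fin K) => p.elim (h 0 0) (fun q => h q.1 (q.2 + 1)))
  rw [tri_form W hsymm hT h hh] at h1
  refine h1.trans (le_of_eq ?_)
  rw [nrm, Fintype.sum_option, Fintype.sum_prod_type]
  congr 2
  refine Finset.sum_congr rfl fun i _ => ?_
  simp only [Option.elim]
  rw [Fin.sum_univ_eq_sum_range (fun k => h i (k + 1) ^ 2) K]

/-- **the basic inequality on the tripod and one further vertex** -/
theorem see_le (c : ℝ) (hc0 : 0 < c)
    (hc : ∀ (s : Finset V) (f : V → ℝ),
      ∑ u ∈ s, ∑ v ∈ s, W u v * f u * f v ≤ c * ∑ u ∈ s, f u ^ 2)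
    (u : V) (hu : ∀ i k, k ≤ K → u ≠ a i k) (huu : W u u = 0)
    (h : Fin 3 → ℕ → ℝ) (hh : ∀ i, h i 0 = h 0 0) :
    see K (fun i k => W u (a i k)) h ^ 2
      ≤ c * (c * nrm K h - frm K (fun i k => W (a i k) (a i (k + 1))) h) := by
  classical
  set S := see K (fun i k => W u (a i k)) h with hS
  let τ : Option (Option (Fin 3 × Fin K)) → V := fun p =>
    p.elim u (fun p => p.elim o (fun q => a q.1 (q.2 + 1)))
  let F : Option (Option (Fin 3 × Fin K)) → ℝ := fun p =>
    p.elim (S / c) (fun p => p.elim (h 0 0) (fun q => h q.1 (q.2 + 1)))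
  have hτ : Function.Injective τ := by
    intro p q hpq
    rcases p with _ | p <;> rcases q with _ | q
    · rfl
    · exfalso
      simp only [τ, Option.elim] at hpq
      rcases q with _ | ⟨i, k⟩
      · exact hu 0 0 (Nat.zero_le _) (by rw [hT.h0]; exact hpq)
      · exact hu i (k + 1) (by omega) hpq
    · exfalso
      simp only [τ, Option.elim] at hpq
      rcases p with _ | ⟨i, k⟩
      · exact hu 0 0 (Nat.zero_le _) (by rw [hT.h0]; exact hpq.symm)
      · exact hu i (k + 1) (by omega) hpq.symm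
    · exact congrArg some (tri_inj W hsymm hT hpq)
  have h1 := quad_inj W c hc τ hτ F
  have hcross : ∑ q : Option (Fin 3 × Fin K), W u (q.elim o (fun q => a q.1 (q.2 + 1)))
      * (q.elim (h 0 0) (fun q => h q.1 (q.2 + 1))) = S := by
    rw [Fintype.sum_option, Fintype.sum_prod_type, hS, see]
    simp only [Option.elim]
    rw [← hT.h0 0]
    congr 1
    refine Finset.sum_congr rfl fun i _ => ?_
    rw [Fin.sum_univ_eq_sum_range (fun k => W u (a i (k + 1)) * h i (k + 1)) K]
  have h2 : ∑ p, ∑ q, W (τ p) (τ q) * F p * F q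
      = 2 * (S / c) * S + frm K (fun i k => W (a i k) (a i (k + 1))) h := by
    rw [Fintype.sum_option]
    simp only [Fintype.sum_option (f := fun q => W (τ _) (τ q) * F _ * F q)]
    rw [Finset.sum_add_distrib]
    have e1 : ∑ q : Option (Fin 3 × Fin K), W (τ none) (τ (some q)) * F none * F (some q)
        = (S / c) * S := by
      have e0 : (S / c) * S = ∑ q : Option (Fin 3 × Fin K), (S / c)
          * (W u (q.elim o (fun q => a q.1 (q.2 + 1)))
            * (q.elim (h 0 0) (fun q => h q.1 (q.2 + 1)))) := by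
        rw [← Finset.mul_sum, hcross]
      rw [e0]
      refine Finset.sum_congr rfl fun q _ => ?_
      change W u (q.elim o (fun q => a q.1 (q.2 + 1))) * (S / c)
        * (q.elim (h 0 0) (fun q => h q.1 (q.2 + 1))) = _
      ring
    have e2 : ∑ p : Option (Fin 3 × Fin K), W (τ (some p)) (τ none) * F (some p) * F none
        = (S / c) * S := by
      have e0 : (S / c) * S = ∑ q : Option (Fin 3 × Fin K), (S / c)
          * (W u (q.elim o (fun q => a q.1 (q.2 + 1)))
            * (q.elim (h 0 0) (fun q => h q.1 (q.2 + 1)))) := by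
        rw [← Finset.mul_sum, hcross]
      rw [e0]
      refine Finset.sum_congr rfl fun q _ => ?_
      change W (q.elim o (fun q => a q.1 (q.2 + 1))) u
        * (q.elim (h 0 0) (fun q => h q.1 (q.2 + 1))) * (S / c) = _
      rw [hsymm _ u]
      ring
    have e3 := tri_form W hsymm hT h hh
    have e4 : W (τ none) (τ none) = 0 := huu
    rw [e1, e2, e4]
    change 0 * F none * F none + S / c * S + (S / c * S + ∑ p : Option (Fin 3 × Fin K),
      ∑ q : Option (Fin 3 × Fin K),
      W (p.elim o (fun q => a q.1 (q.2 + 1))) (q.elim o (fun q => a q.1 (q.2 + 1)))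
        * p.elim (h 0 0) (fun q => h q.1 (q.2 + 1)) * q.elim (h 0 0) (fun q => h q.1 (q.2 + 1))) = _
    rw [e3]
    ring
  have h3 : ∑ p, F p ^ 2 = (S / c) ^ 2 + nrm K h := by
    rw [Fintype.sum_option, Fintype.sum_option, Fintype.sum_prod_type, nrm]
    simp only [F, Option.elim]
    congr 2
    refine Finset.sum_congr rfl fun i _ => ?_
    rw [Fin.sum_univ_eq_sum_range (fun k => h i (k + 1) ^ 2) K]
  rw [h2, h3] at h1
  have h4 : c * (2 * (S / c) * S + frm K (fun i k => W (a i k) (a i (k + 1))) h)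
      ≤ c * (c * ((S / c) ^ 2 + nrm K h)) := mul_le_mul_of_nonneg_left h1 hc0.le
  have h5 : c * (2 * (S / c) * S + frm K (fun i k => W (a i k) (a i (k + 1))) h)
      = 2 * S ^ 2 + c * frm K (fun i k => W (a i k) (a i (k + 1))) h := by
    field_simp
  have h6 : c * (c * ((S / c) ^ 2 + nrm K h)) = S ^ 2 + c * (c * nrm K h) := by
    field_simp
  rw [h5, h6] at h4
  nlinarith

end Pool.Agent.Q181.LW
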