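import Pool.Agent.Q181.LW.Arm

set_option autoImplicit false
set_option linter.unusedSectionVars false

/-! The arms of a long induced tripod are isolated in a bipartite integrally weighted graph of norm
at most `3 / √2` plus an exponentially small number. -/

namespace Pool.Agent.Q181.LW

open TH57.Thr

variable {V : Type*} [DecidableEq V] (W : V → V → ℝ) (hsymm : ∀ u v, W u v = W v u)
  (t c δ : ℝ) (ht0 : 0 < t) (ht : t ^ 2 = 1 / 2) (hct : c = 3 * t + δ) (hδ0 : 0 ≤ δ)
  (hc : ∀ (s : Finset V) (f : V → ℝ),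
      ∑ u ∈ s, ∑ v ∈ s, W u v * f u * f v ≤ c * ∑ u ∈ s, f u ^ 2)
  {N : ℕ} {a : Fin 3 → ℕ → V} {o : V} (hT : TriData W N a o) (hδ : δ ≤ (1 / 2) ^ (N + 4))

include hsymm ht0 ht hct hδ0 hc hT hδ

/-- The weights along the arms are `± 1`. -/
theorem weight_lt (i : Fin 3) (k : ℕ) (hk : k + 2 ≤ N) : |W (a i k) (a i (k + 1))| < 2 := by
  by_contra hcon
  push Not at hcon
  set w : Fin 3 → ℕ → ℝ := fun i k => W (a i k) (a i (k + 1)) with hw
  have h1 := tri_le W hsymm hT c hc (fun i k => sg (w i) k * t ^ k)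
    (fun i => by simp [sg])
  have hn : nrm N (fun i k => sg (w i) k * t ^ k) = 4 - 3 * (1 / 2) ^ N := by
    unfold nrm
    have h2 : ∀ i k, (sg (w i) (k + 1) * t ^ (k + 1)) ^ 2 = (1 / 2) * (1 / 2) ^ k := by
      intro i k
      rw [mul_pow, sq (sg (w i) (k + 1)), sg_sq, one_mul, ← pow_mul, mul_comm (k + 1) 2,
        pow_tt t ht, pow_succ]
      ring
    simp only [h2]
    rw [← Finset.mul_sum, geom_half, Fin.sum_univ_three]
    simp [sg]
    ring
  have hf : 12 * t - 12 * t * (1 / 2) ^ N + 2 * t * (1 / 2) ^ k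
      ≤ frm N w (fun i k => sg (w i) k * t ^ k) := by
    have h2 : ∀ j l, w j l * (sg (w j) l * t ^ l) * (sg (w j) (l + 1) * t ^ (l + 1))
        = |w j l| * (t * (1 / 2) ^ l) := by
      intro j l
      rw [← sg_step (w j) l, ← pow_tt t ht l]
      ring
    unfold frm
    simp only [h2]
    have h3 : ∀ j, ∑ l ∈ Finset.range N, (t * (1 / 2 : ℝ) ^ l
        + (if j = i ∧ l = k then t * (1 / 2) ^ k else 0))
        ≤ ∑ l ∈ Finset.range N, |w j l| * (t * (1 / 2) ^ l) := by
      intro j
      refine Finset.sum_le_sum fun l hl => ?_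
      have h4 : (0 : ℝ) < t * (1 / 2) ^ l := by positivity
      split_ifs with h5
      · obtain ⟨rfl, rfl⟩ := h5
        have h6 : 2 ≤ |w j l| := hcon
        nlinarith
      · have h6 := hT.hW1 j l (Finset.mem_range.1 hl)
        have h7 : 1 ≤ |w j l| := h6
        nlinarith
    have h4 : ∀ j, ∑ l ∈ Finset.range N, (t * (1 / 2 : ℝ) ^ l
        + (if j = i ∧ l = k then t * (1 / 2) ^ k else 0))
        = t * (2 - 2 * (1 / 2) ^ N) + (if j = i then t * (1 / 2) ^ k else 0) := by
      intro j
      rw [Finset.sum_add_distrib, ← Finset.mul_sum, geom_half]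
      congr 1
      by_cases h5 : j = i
      · simp only [h5, true_and, if_true]
        rw [Finset.sum_ite_eq' (Finset.range N) k, if_pos (Finset.mem_range.2 (by omega))]
      · simp [h5]
    have h5 : ∑ j : Fin 3, (t * (2 - 2 * (1 / 2 : ℝ) ^ N) + (if j = i then t * (1 / 2) ^ k else 0))
        = 3 * (t * (2 - 2 * (1 / 2) ^ N)) + t * (1 / 2) ^ k := by
      rw [Finset.sum_add_distrib, Finset.sum_ite_eq' Finset.univ i, if_pos (Finset.mem_univ _)]
      simp
    have h6 : ∑ j : Fin 3, ∑ l ∈ Finset.range N, (t * (1 / 2 : ℝ) ^ l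
        + (if j = i ∧ l = k then t * (1 / 2) ^ k else 0))
        ≤ ∑ j : Fin 3, ∑ l ∈ Finset.range N, |w j l| * (t * (1 / 2) ^ l) :=
      Finset.sum_le_sum fun j _ => h3 j
    simp only [h4] at h6
    rw [h5] at h6
    linarith
  rw [hn, hct] at h1
  have h2 := hf.trans h1
  have h3 : 4 * (1 / 2 : ℝ) ^ N ≤ (1 / 2) ^ k := by
    obtain ⟨m, rfl⟩ : ∃ m, N = k + 2 + m := ⟨N - (k + 2), by omega⟩
    rw [pow_add, pow_add]
    have h9 : (1 / 2 : ℝ) ^ m ≤ 1 := pow_le_one₀ (by norm_num) (by norm_num)
    have h10 : (0 : ℝ) < (1 / 2) ^ k := by positivity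
    nlinarith
  have h4 : (0 : ℝ) < (1 / 2) ^ N := by positivity
  have h5 : δ ≤ (1 / 16) * (1 / 2) ^ N := by
    refine hδ.trans (le_of_eq ?_)
    rw [pow_add]; ring
  have ht3 : 707 / 1000 ≤ t := by
    by_contra hcon
    push Not at hcon
    nlinarith
  have h6 : δ * (4 - 3 * (1 / 2) ^ N) ≤ 4 * δ := by nlinarith
  nlinarith

variable (hint : ∀ u v, ∃ z : ℤ, W u v = z)

include hint in
theorem weight_eq (i : Fin 3) (k : ℕ) (hk : k + 2 ≤ N) : |W (a i k) (a i (k + 1))| = 1 := by
  have h1 := weight_lt W hsymm t c δ ht0 ht hct hδ0 hc hT hδ i k hk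
  have h2 := hT.hW1 i k (by omega)
  obtain ⟨z, hz⟩ := hint (a i k) (a i (k + 1))
  rw [hz] at h1 h2 ⊢
  have h3 : |z| < 2 := by exact_mod_cast h1
  have h4 : 1 ≤ |z| := by exact_mod_cast h2
  have h5 : |z| = 1 := by omega
  exact_mod_cast h5

variable (side : V → Bool) (hside : ∀ u v, W u v ≠ 0 → side u ≠ side v)

include hside in
omit [DecidableEq V] hsymm ht0 ht hct hδ0 hc hδ in
theorem side_arm (i : Fin 3) (k : ℕ) (hk : k ≤ N) :
    side (a i k) = xor (side o) (decide (k % 2 = 1)) := by
  induction k with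
  | zero => simp [hT.h0]
  | succ k ih =>
    have h1 := hT.hW1 i k (by omega)
    have h2 : W (a i k) (a i (k + 1)) ≠ 0 := by
      intro h; rw [h, abs_zero] at h1; norm_num at h1
    have h3 := hside _ _ h2
    rw [ih (by omega)] at h3
    rcases Nat.mod_two_eq_zero_or_one k with h | h
    · have h4 : (k + 1) % 2 = 1 := by omega
      simp only [h, h4] at h3 ⊢
      revert h3
      cases side o <;> cases side (a i (k + 1)) <;> simp
    · have h4 : (k + 1) % 2 = 0 := by omega
      simp only [h, h4] at h3 ⊢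
      revert h3
      cases side o <;> cases side (a i (k + 1)) <;> simp

include hside hint in
/-- **The arms are isolated.** -/
theorem isolated (i₀ : Fin 3) (k₀ : ℕ) (hk₀ : 3 ≤ k₀) (hkN : k₀ + 22 ≤ N) (u : V)
    (hu : W (a i₀ k₀) u ≠ 0) : u = a i₀ (k₀ - 1) ∨ u = a i₀ (k₀ + 1) := by
  classical
  by_cases hin : ∃ j l, l ≤ N ∧ u = a j l
  · obtain ⟨j, l, hl, rfl⟩ := hin
    by_cases hj : j = i₀
    · subst hj
      by_contra hcon
      push Not at hcon
      apply hu
      apply hT.hW0 _ _ _ (by omega) hl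
      · intro h
        exact hcon.2 (by rw [h])
      · intro h
        exact hcon.1 (by rw [← h]; rfl)
    · exfalso
      apply hu
      rcases Nat.eq_zero_or_pos l with h | h
      · subst h
        rw [hT.h0, ← hT.h0 i₀]
        exact hT.hW0 _ _ _ (by omega) (by omega) (by omega) (by omega)
      · exact hT.hWc _ _ _ _ (Ne.symm hj) (by omega) (by omega) h hl
  exfalso
  push Not at hin
  set w : Fin 3 → ℕ → ℝ := fun i k => W (a i k) (a i (k + 1)) with hw
  have hq : ∀ i k, ∃ z : ℤ, (z : ℝ) = W u (a i k) * sg (w i) k := by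
    intro i k
    obtain ⟨z, hz⟩ := hint u (a i k)
    rcases mul_self_eq_one_iff.1 (sg_sq (w i) k) with h | h
    · exact ⟨z, by rw [h, hz, mul_one]⟩
    · exact ⟨-z, by rw [h, hz]; push_cast; ring⟩
  choose q hq using hq
  have hq0 : ∀ i, q i 0 = q 0 0 := by
    intro i
    have h1 := hq i 0
    have h2 := hq 0 0
    rw [hT.h0] at h1 h2
    have h3 : sg (w i) 0 = 1 := rfl
    have h4 : sg (w 0) 0 = 1 := rfl
    rw [h3] at h1
    rw [h4] at h2
    have : (q i 0 : ℝ) = q 0 0 := by rw [h1, h2]
    exact_mod_cast this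
  have hqne : ∀ i k, q i k ≠ 0 → W u (a i k) ≠ 0 := by
    intro i k h h1
    apply h
    have := hq i k
    rw [h1, zero_mul] at this
    exact_mod_cast this
  have hsgne : ∀ (i : Fin 3) k, sg (w i) k ≠ 0 := by
    intro i k h
    have := sg_sq (w i) k
    rw [h] at this
    norm_num at this
  have hpar : ∀ i k j l, k ≤ N → l ≤ N → q i k ≠ 0 → q j l ≠ 0 → (k + l) % 2 = 0 := by
    intro i k j l hk hl h1 h2
    have h3 := hside _ _ (hqne i k h1)
    have h4 := hside _ _ (hqne j l h2)
    rw [side_arm W hT side hside i k hk] at h3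
    rw [side_arm W hT side hside j l hl] at h4
    by_contra hcon
    rcases Nat.mod_two_eq_zero_or_one k with h | h <;>
      rcases Nat.mod_two_eq_zero_or_one l with h' | h'
    · omega
    · simp only [h, h'] at h3 h4
      revert h3 h4
      cases side o <;> cases side u <;> simp
    · simp only [h, h'] at h3 h4
      revert h3 h4
      cases side o <;> cases side u <;> simp
    · omega
  have hc0 : 0 < c := by rw [hct]; positivity
  have huu : W u u = 0 := by
    by_contra h
    exact hside _ _ h rfl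
  -- the inequality for sign normalised vectors
  have hmain : ∀ K, K + 1 ≤ N → ∀ x : Fin 3 → ℕ → ℝ, (∀ i, x i 0 = x 0 0) →
      see K (fun i k => (q i k : ℝ)) x ^ 2
        ≤ c * (c * nrm K x - frm K (fun _ _ => 1) x) := by
    intro K hK x hx
    have h1 := see_le W hsymm (hT.mono (by omega : K ≤ N)) c hc0 hc u
      (fun i k hk => hin i k (by omega)) huu (fun i k => sg (w i) k * x i k)
      (fun i => by
        have h3 : sg (w i) 0 = 1 := rfl
        have h4 : sg (w 0) 0 = 1 := rfl
        rw [h3, h4, hx i])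
    have e1 : see K (fun i k => W u (a i k)) (fun i k => sg (w i) k * x i k)
        = see K (fun i k => (q i k : ℝ)) x := by
      unfold see
      simp only [hq]
      congr 1
      · ring
      · refine Finset.sum_congr rfl fun i _ => Finset.sum_congr rfl fun k _ => ?_
        ring
    have e2 : nrm K (fun i k => sg (w i) k * x i k) = nrm K x := by
      unfold nrm
      congr 1
      · rw [mul_pow, sq (sg (w 0) 0), sg_sq, one_mul]
      · refine Finset.sum_congr rfl fun i _ => Finset.sum_congr rfl fun k _ => ?_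
        rw [mul_pow, sq (sg (w i) (k + 1)), sg_sq, one_mul]
    have e3 : frm K (fun i k => W (a i k) (a i (k + 1))) (fun i k => sg (w i) k * x i k)
        = frm K (fun _ _ => 1) x := by
      unfold frm
      congr 1
      refine Finset.sum_congr rfl fun i _ => Finset.sum_congr rfl fun k hk => ?_
      have h2 := sg_step (w i) k
      have h3 : |w i k| = 1 :=
        weight_eq W hsymm t c δ ht0 ht hct hδ0 hc hT hδ hint i k (by
          have := Finset.mem_range.1 hk; omega)
      rw [h3] at h2
      change w i k * (sg (w i) k * x i k) * (sg (w i) (k + 1) * x i (k + 1))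
        = 1 * x i k * x i (k + 1)
      linear_combination (x i k * x i (k + 1)) * h2
    rw [e1, e2, e3] at h1
    exact h1
  -- few vertices are seen
  have hcount : ∑ k ∈ Finset.range (N - 1), ∑ i, (q i (k + 1)) ^ 2 ≤ 4 := by
    have h1 := hmain (N - 1) (by omega) (fun i k => (q i k : ℝ)) (fun i => by
      simp only [hq0 i])
    have e1 : see (N - 1) (fun i k => (q i k : ℝ)) (fun i k => (q i k : ℝ))
        = nrm (N - 1) (fun i k => (q i k : ℝ)) := by
      unfold see nrm
      congr 1
      · ring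
      · refine Finset.sum_congr rfl fun i _ => Finset.sum_congr rfl fun k _ => ?_
        ring
    have e2 : frm (N - 1) (fun _ _ => 1) (fun i k => (q i k : ℝ)) = 0 := by
      unfold frm
      rw [Finset.sum_eq_zero, mul_zero]
      intro i _
      refine Finset.sum_eq_zero fun k hk => ?_
      have hk' := Finset.mem_range.1 hk
      by_cases h2 : q i k = 0
      · simp [h2]
      · by_cases h3 : q i (k + 1) = 0
        · simp [h3]
        · have := hpar i k i (k + 1) (by omega) (by omega) h2 h3
          omega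
    rw [e1, e2, sub_zero] at h1
    set n := nrm (N - 1) (fun i k => (q i k : ℝ)) with hn
    have h2 : ((∑ k ∈ Finset.range (N - 1), ∑ i, (q i (k + 1)) ^ 2 : ℤ) : ℝ) ≤ n := by
      rw [hn, nrm]
      push_cast
      rw [Finset.sum_comm]
      nlinarith [sq_nonneg ((q 0 0 : ℤ) : ℝ)]
    by_contra hcon
    push Not at hcon
    have h3 : (5 : ℤ) ≤ ∑ k ∈ Finset.range (N - 1), ∑ i, (q i (k + 1)) ^ 2 := by omega
    have h4 : (5 : ℝ) ≤ ((∑ k ∈ Finset.range (N - 1), ∑ i, (q i (k + 1)) ^ 2 : ℤ) : ℝ) := by
      exact_mod_cast h3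
    have h5 : 5 ≤ n := h4.trans h2
    have h6 : n ≤ c * c := by
      have h7 : n * n ≤ (c * c) * n := by nlinarith
      exact le_of_mul_le_mul_right h7 (by linarith)
    have hδ1 : δ ≤ (1 / 2) ^ 4 :=
      hδ.trans (pow_le_pow_of_le_one (by norm_num) (by norm_num) (by omega))
    norm_num at hδ1
    have ht1 : t ≤ 71 / 100 := by
      by_contra hcon
      push Not at hcon
      nlinarith
    have h8 : c * c = 9 * t ^ 2 + 6 * t * δ + δ ^ 2 := by rw [hct]; ring
    rw [h8, ht] at h6
    nlinarith
  -- a block which is not seen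
  have hblock : ∃ s < 5, ∀ k, N - 1 - 4 * s - 4 < k → k ≤ N - 1 - 4 * s → ∀ i, q i k = 0 := by
    by_contra hcon
    push Not at hcon
    choose! k hk1 hk2 i hki using hcon
    have hinj : Set.InjOn (fun s => k s - 1) (Finset.range 5 : Set ℕ) := by
      intro s hs s' hs' h
      have hs := Finset.mem_range.1 (Finset.mem_coe.1 hs)
      have hs' := Finset.mem_range.1 (Finset.mem_coe.1 hs')
      have a1 := hk1 s hs
      have a2 := hk2 s hs
      have b1 := hk1 s' hs'
      have b2 := hk2 s' hs'
      have h' : k s - 1 = k s' - 1 := h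
      omega
    have h1 : ((Finset.range 5).image (fun s => k s - 1)).card = 5 := by
      rw [Finset.card_image_of_injOn hinj, Finset.card_range]
    have h2 : (Finset.range 5).image (fun s => k s - 1) ⊆ Finset.range (N - 1) := by
      intro l hl
      obtain ⟨s, hs, rfl⟩ := Finset.mem_image.1 hl
      have hs := Finset.mem_range.1 hs
      have a1 := hk1 s hs
      have a2 := hk2 s hs
      rw [Finset.mem_range]
      omega
    have h3 : (5 : ℤ) ≤ ∑ l ∈ (Finset.range 5).image (fun s => k s - 1),
        ∑ i, (q i (l + 1)) ^ 2 := by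
      calc (5 : ℤ) = ∑ l ∈ (Finset.range 5).image (fun s => k s - 1), 1 := by
            rw [Finset.sum_const, h1]; rfl
        _ ≤ _ := by
            refine Finset.sum_le_sum fun l hl => ?_
            obtain ⟨s, hs, rfl⟩ := Finset.mem_image.1 hl
            have hs := Finset.mem_range.1 hs
            have a1 := hk1 s hs
            have h4 : k s - 1 + 1 = k s := by omega
            rw [h4]
            have h5 : 1 ≤ (q (i s) (k s)) ^ 2 := by
              have := hki s hs
              have : 0 < (q (i s) (k s)) ^ 2 := by positivity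
              omega
            exact h5.trans (Finset.single_le_sum (f := fun i => (q i (k s)) ^ 2)
              (fun i _ => sq_nonneg _) (Finset.mem_univ (i s)))
    have h4 := Finset.sum_le_sum_of_subset_of_nonneg h2
      (f := fun l => ∑ i, (q i (l + 1)) ^ 2)
      (fun l _ _ => Finset.sum_nonneg fun i _ => sq_nonneg _)
    have h5 := (h3.trans h4).trans hcount
    omega
  obtain ⟨s, hs, hfree⟩ := hblock
  set K := N - 1 - 4 * s with hK
  have hP0 : ∃ i, q i k₀ ≠ 0 := by
    refine ⟨i₀, ?_⟩
    intro h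
    have h1 := hq i₀ k₀
    rw [h, Int.cast_zero] at h1
    rcases mul_eq_zero.1 h1.symm with h2 | h2
    · exact hu (by rw [hsymm]; exact h2)
    · exact hsgne _ _ h2
  have hk₀K : k₀ ≤ K := by omega
  set k₁ := Nat.findGreatest (fun k => ∃ i, q i k ≠ 0) K with hk₁
  have h1 : ∃ i, q i k₁ ≠ 0 := Nat.findGreatest_spec (P := fun k => ∃ i, q i k ≠ 0) hk₀K hP0
  have h2 : k₀ ≤ k₁ := Nat.le_findGreatest hk₀K hP0
  have h3 : ∀ i k, k₁ < k → k ≤ K → q i k = 0 := by
    intro i k h4 h5
    have h6 := Nat.findGreatest_is_greatest h4 h5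
    push Not at h6
    exact h6 i
  have h4 : k₁ ≤ K := Nat.findGreatest_le K
  have h5 : k₁ + 4 ≤ K := by
    by_contra hcon
    obtain ⟨i, hi⟩ := h1
    exact hi (hfree k₁ (by omega) h4 i)
  exact arm_lemma t c δ ht0 ht hct hδ0 K k₁ (by omega) h5
    (hδ.trans (pow_le_pow_of_le_one (by norm_num) (by norm_num) (by omega))) q
    (fun i k hk h6 => by
      obtain ⟨j, hj⟩ := h1
      exact hpar i k j k₁ (by omega) (by omega) h6 hj) h3 h1
    (fun x hx => hmain K (by omega) x hx)

end Pool.Agent.Q181.LW
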