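import Pool.Agent.Q181.LW.Iso
import Pool.Agent.TH57.Thr.Struct

set_option autoImplicit false
set_option linter.unusedSectionVars false

/-! Long isolated arms in the graph of a matrix over a group ring are periodic, which is impossible
in a tripod. -/

namespace Pool.Agent.Q181.LW

open TH57.Thr

variable {G : Type*} [Group G] {ι κ : Type*}

theorem mv_inj (g : G) {u v : Vx G ι κ} (h : mv g u = mv g v) : u = v := by
  have h1 : mv g⁻¹ (mv g u) = mv g⁻¹ (mv g v) := by rw [h]
  rwa [← mv_mul, ← mv_mul, inv_mul_cancel, mv_one, mv_one] at h1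

/-- the isolation of the arms -/
def IsoArm (A : Matrix ι κ (MonoidAlgebra ℤ G)) (N : ℕ) (a : Fin 3 → ℕ → Vx G ι κ) : Prop :=
  ∀ i k, 3 ≤ k → k + 22 ≤ N → ∀ u, wt A (a i k) u ≠ 0 → u = a i (k - 1) ∨ u = a i (k + 1)

theorem periodic_false (A : Matrix ι κ (MonoidAlgebra ℤ G)) {N : ℕ} {a : Fin 3 → ℕ → Vx G ι κ}
    {o : Vx G ι κ} (hT : TriData (wt A) N a o) (hI : IsoArm A N a) (k d : ℕ) (hk : 3 ≤ k)
    (hd : 1 ≤ d) (hN : k + 2 * d + 22 ≤ N) (g : G) (hg : mv g (a 0 k) = a 0 (k + 2 * d)) :
    False := by
  have hadj : ∀ i j, j < N → wt A (a i j) (a i (j + 1)) ≠ 0 := by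
    intro i j hj h
    have h1 := hT.hW1 i j hj
    rw [h, abs_zero] at h1
    norm_num at h1
  have hadj' : ∀ i j, j < N → wt A (a i (j + 1)) (a i j) ≠ 0 := by
    intro i j hj
    rw [wt_symm]
    exact hadj i j hj
  have hne : ∀ j l, j ≤ N → l ≤ N → a 0 j = a 0 l → j = l := by
    intro j l hj hl h
    rcases hT.hinj 0 0 j l hj hl h with h1 | h1
    · omega
    · exact h1.2
  have h1 : wt A (a 0 (k + 2 * d)) (mv g (a 0 (k + 1))) ≠ 0 := by
    rw [← hg, wt_mv]
    exact hadj 0 k (by omega)
  rcases hI 0 (k + 2 * d) (by omega) (by omega) _ h1 with h2 | h2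
  · -- the orientation is reversed
    have hP : ∀ m, m ≤ d → mv g (a 0 (k + m)) = a 0 (k + 2 * d - m) ∧
        mv g (a 0 (k + m + 1)) = a 0 (k + 2 * d - m - 1) := by
      intro m
      induction m with
      | zero => intro _; exact ⟨hg, h2⟩
      | succ m ih =>
        intro hm
        obtain ⟨e1, e2⟩ := ih (by omega)
        refine ⟨by rw [← add_assoc, e2, Nat.sub_sub], ?_⟩
        have h3 : wt A (a 0 (k + 2 * d - m - 1)) (mv g (a 0 (k + m + 1 + 1))) ≠ 0 := by
          rw [← e2, wt_mv]
          exact hadj 0 (k + m + 1) (by omega)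
        rcases hI 0 (k + 2 * d - m - 1) (by omega) (by omega) _ h3 with h4 | h4
        · rw [← add_assoc, h4]
          congr 1
        · exfalso
          have h5 : k + 2 * d - m - 1 + 1 = k + 2 * d - m := by omega
          rw [h5, ← e1] at h4
          have h6 := hne _ _ (by omega) (by omega) (mv_inj g h4)
          omega
    have h3 := (hP d le_rfl).1
    have h4 : k + 2 * d - d = k + d := by omega
    rw [h4] at h3
    have h5 := mv_free g _ h3
    rw [h5, mv_one] at hg
    have h6 := hne _ _ (by omega) (by omega) hg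
    omega
  · -- the orientation is preserved
    have hP : ∀ m, m ≤ k → mv g (a 0 (k - m)) = a 0 (k - m + 2 * d) ∧
        mv g (a 0 (k - m + 1)) = a 0 (k - m + 2 * d + 1) := by
      intro m
      induction m with
      | zero => intro _; exact ⟨hg, h2⟩
      | succ m ih =>
        intro hm
        obtain ⟨e1, e2⟩ := ih (by omega)
        obtain ⟨j, hj⟩ : ∃ j, k - m = j + 1 := ⟨k - m - 1, by omega⟩
        have hj2 : k - (m + 1) = j := by omega
        rw [hj] at e1 e2
        rw [hj2]
        refine ⟨?_, by rw [e1]; congr 1; omega⟩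
        have h3 : wt A (a 0 (j + 1 + 2 * d)) (mv g (a 0 j)) ≠ 0 := by
          rw [← e1, wt_mv]
          exact hadj' 0 j (by omega)
        rcases hI 0 (j + 1 + 2 * d) (by omega) (by omega) _ h3 with h4 | h4
        · rw [h4]
          congr 1
          omega
        · exfalso
          rw [← e2] at h4
          have h6 := hne _ _ (by omega) (by omega) (mv_inj g h4)
          omega
    have hQ : ∀ j, j ≤ k → mv g (a 0 j) = a 0 (j + 2 * d) := by
      intro j hj
      have := (hP (k - j) (by omega)).1
      have h3 : k - (k - j) = j := by omega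
      rwa [h3] at this
    have hiso : ∀ v, wt A (a 0 (2 * d)) v ≠ 0 → v = a 0 (2 * d - 1) ∨ v = a 0 (2 * d + 1) := by
      intro v hv
      rcases Nat.lt_or_ge d 2 with h | h
      · have hd1 : d = 1 := by omega
        subst hd1
        have h3 : wt A (a 0 4) (mv g v) ≠ 0 := by
          have h4 := hQ 2 (by omega)
          have h5 : a 0 4 = mv g (a 0 2) := h4.symm
          rw [h5, wt_mv]
          exact hv
        rcases hI 0 4 (by omega) (by omega) _ h3 with h4 | h4
        · left
          have h5 : mv g v = mv g (a 0 1) := by rw [hQ 1 (by omega)]; exact h4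
          exact mv_inj g h5
        · right
          have h5 : mv g v = mv g (a 0 3) := by rw [hQ 3 (by omega)]; exact h4
          exact mv_inj g h5
      · exact hI 0 (2 * d) (by omega) (by omega) v hv
    have h0 : mv g o = a 0 (2 * d) := by
      have := hQ 0 (by omega)
      rwa [hT.h0, zero_add] at this
    have hfin : ∀ i : Fin 3, i ≠ 0 → mv g (a i 1) = a 0 (2 * d - 1) := by
      intro i hi
      have h3 : wt A (a 0 (2 * d)) (mv g (a i 1)) ≠ 0 := by
        rw [← h0, wt_mv, ← hT.h0 i]
        exact hadj i 0 (by omega)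
      rcases hiso _ h3 with h4 | h4
      · exact h4
      · exfalso
        have h5 : mv g (a i 1) = mv g (a 0 1) := by
          rw [hQ 1 (by omega), h4]
          congr 1
          omega
        have h6 := mv_inj g h5
        rcases hT.hinj i 0 1 1 (by omega) (by omega) h6 with h7 | h7
        · omega
        · exact hi h7.1
    have h3 := (hfin 1 (by decide)).trans (hfin 2 (by decide)).symm
    rcases hT.hinj 1 2 1 1 (by omega) (by omega) (mv_inj g h3) with h7 | h7
    · omega
    · exact absurd h7.1 (by decide)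

end Pool.Agent.Q181.LW
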