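import Pool.Agent.Q181.LW.Per

set_option autoImplicit false
set_option linter.unusedSectionVars false

/-! Matrices with few rows of norm at most `3 / √2` plus an exponentially small number have no long
tripods. -/

namespace Pool.Agent.Q181.LW

open TH57.Thr

variable {G : Type*} [Group G] {ι κ : Type*}

theorem wt_int (A : Matrix ι κ (MonoidAlgebra ℤ G)) (u v : Vx G ι κ) :
    ∃ z : ℤ, wt A u v = z := by
  rcases u with p | q <;> rcases v with p' | q'
  · exact ⟨0, by simp [wt]⟩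
  · exact ⟨_, rfl⟩
  · exact ⟨_, rfl⟩
  · exact ⟨0, by simp [wt]⟩

theorem wt_side (A : Matrix ι κ (MonoidAlgebra ℤ G)) (u v : Vx G ι κ) (h : wt A u v ≠ 0) :
    u.isLeft ≠ v.isLeft := by
  rcases u with p | q <;> rcases v with p' | q'
  · exact absurd rfl h
  · simp
  · simp
  · exact absurd rfl h

variable [Fintype ι] [Fintype κ] [DecidableEq ι] [DecidableEq κ]

theorem isoArm_of (A : Matrix ι κ (MonoidAlgebra ℤ G)) (t δ : ℝ) (ht0 : 0 < t)
    (ht : t ^ 2 = 1 / 2) (hδ0 : 0 ≤ δ) (hA : NormLE A (3 * t + δ)) {N : ℕ}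
    {a : Fin 3 → ℕ → Vx G ι κ} {o : Vx G ι κ} (hT : TriData (wt A) N a o)
    (hδ : δ ≤ (1 / 2) ^ (N + 4)) : IsoArm A N a := by
  classical
  intro i k hk hN u hu
  exact isolated (wt A) (wt_symm A) t (3 * t + δ) δ ht0 ht rfl hδ0
    (fun s f => quad_bound A (3 * t + δ) (by positivity) hA s f) hT hδ (wt_int A)
    (fun v => v.isLeft) (wt_side A) i k hk hN u hu

theorem weight_one (A : Matrix ι κ (MonoidAlgebra ℤ G)) (t δ : ℝ) (ht0 : 0 < t)
    (ht : t ^ 2 = 1 / 2) (hδ0 : 0 ≤ δ) (hA : NormLE A (3 * t + δ)) {N : ℕ}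
    {a : Fin 3 → ℕ → Vx G ι κ} {o : Vx G ι κ} (hT : TriData (wt A) N a o)
    (hδ : δ ≤ (1 / 2) ^ (N + 4)) (i : Fin 3) (k : ℕ) (hk : k + 2 ≤ N) :
    |wt A (a i k) (a i (k + 1))| = 1 := by
  classical
  exact weight_eq (wt A) (wt_symm A) t (3 * t + δ) δ ht0 ht rfl hδ0
    (fun s f => quad_bound A (3 * t + δ) (by positivity) hA s f) hT hδ (wt_int A) i k hk

/-- **Few rows.** -/
theorem no_tri_size (A : Matrix ι κ (MonoidAlgebra ℤ G)) (t δ : ℝ) (ht0 : 0 < t)
    (ht : t ^ 2 = 1 / 2) (hδ0 : 0 ≤ δ) (hA : NormLE A (3 * t + δ)) {N : ℕ}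
    {a : Fin 3 → ℕ → Vx G ι κ} {o : Vx G ι κ} (hT : TriData (wt A) N a o)
    (hδ : δ ≤ (1 / 2) ^ (N + 4)) (hN : 2 * Fintype.card ι + 26 ≤ N) : False := by
  classical
  have hI := isoArm_of A t δ ht0 ht hδ0 hA hT hδ
  obtain ⟨e, he3, he4, he⟩ : ∃ e, 3 ≤ e ∧ e ≤ 4 ∧ ∀ j, e + 2 * j ≤ N →
      (a 0 (e + 2 * j)).isLeft = true := by
    have hs := side_arm (wt A) hT (fun v => v.isLeft) (wt_side A) 0
    rcases hol : o.isLeft with _ | _
    · refine ⟨3, le_rfl, by omega, fun j hj => ?_⟩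
      have h1 := hs (3 + 2 * j) hj
      simp only [hol] at h1
      have h2 : (3 + 2 * j) % 2 = 1 := by omega
      rw [h1, h2]; rfl
    · refine ⟨4, by omega, le_rfl, fun j hj => ?_⟩
      have h1 := hs (4 + 2 * j) hj
      simp only [hol] at h1
      have h2 : (4 + 2 * j) % 2 = 0 := by omega
      rw [h1, h2]; rfl
  have hrow : ∀ j : Fin (Fintype.card ι + 1), ∃ p : G × ι, a 0 (e + 2 * j) = Sum.inl p := by
    intro j
    have h1 := he j (by omega)
    rcases h2 : a 0 (e + 2 * (j : ℕ)) with p | q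
    · exact ⟨p, rfl⟩
    · rw [h2] at h1
      exact absurd h1 (by simp)
  choose p hp using hrow
  obtain ⟨x, y, hxy, hpq⟩ := Fintype.exists_ne_map_eq_of_card_lt (fun j => (p j).2)
    (by rw [Fintype.card_fin]; omega)
  have key : ∀ x y : Fin (Fintype.card ι + 1), x < y → (p x).2 = (p y).2 → False := by
    intro x y hlt hxy
    refine periodic_false A hT hI (e + 2 * x) (y - x) (by omega) (by
      have : (x : ℕ) < y := hlt
      omega) (by have := y.2; omega) ((p y).1 * ((p x).1)⁻¹) ?_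
    have h1 : e + 2 * (x : ℕ) + 2 * ((y : ℕ) - x) = e + 2 * y := by
      have : (x : ℕ) < y := hlt
      omega
    rw [h1, hp, hp]
    simp [mv, hxy]
  rcases lt_or_gt_of_ne hxy with h | h
  · exact key x y h hpq
  · exact key y x h hpq.symm

end Pool.Agent.Q181.LW
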