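import Pool.Agent.Q181.LW.Edges

set_option autoImplicit false
set_option linter.unusedSectionVars false

/-! Splitting the vertices of degree four of the graph of a matrix. -/

namespace Pool.Agent.Q181.LW

open Matrix TH57.Thr

variable {G : Type} [Group G] {κ E : Type} [Fintype κ] [DecidableEq κ] [Fintype E] [DecidableEq E]

section

variable (s t : E → κ) (z : E → MonoidAlgebra ℤ G) (α β : E → Fin 2)

/-- the middle matrix -/
noncomputable def mid : Matrix (κ × Fin 2) (κ × Fin 2) (MonoidAlgebra ℤ G) :=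
  ∑ e, Matrix.single (s e, α e) (t e, β e) (z e)

noncomputable def mR : Matrix κ (κ × Fin 2) (MonoidAlgebra ℤ G) := fun i x =>
  if x.1 = i then 1 else 0

noncomputable def mC : Matrix (κ × Fin 2) κ (MonoidAlgebra ℤ G) := fun x i =>
  if x.1 = i then 1 else 0

theorem mR_mid_mC : (mR : Matrix κ (κ × Fin 2) (MonoidAlgebra ℤ G)) * mid s t z α β
    * (mC : Matrix (κ × Fin 2) κ (MonoidAlgebra ℤ G)) = ∑ e, Matrix.single (s e) (t e) (z e) := by
  unfold mid
  rw [Matrix.mul_sum, Matrix.sum_mul]
  refine Finset.sum_congr rfl fun e _ => ?_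
  ext1 i j
  rw [Matrix.mul_apply, Finset.sum_eq_single (t e, β e)]
  · rw [Matrix.mul_apply, Finset.sum_eq_single (s e, α e)]
    · simp only [mR, mC, Matrix.single_apply]
      by_cases h1 : s e = i <;> by_cases h2 : t e = j <;> simp [h1, h2]
    · intro x _ hx
      rw [Matrix.single_apply, if_neg (fun h => hx h.1.symm), mul_zero]
    · intro h; exact absurd (Finset.mem_univ _) h
  · intro x _ hx
    rw [Matrix.mul_apply, Finset.sum_eq_zero, zero_mul]
    intro y _
    rw [Matrix.single_apply, if_neg (fun h => hx h.2.symm), mul_zero]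
  · intro h; exact absurd (Finset.mem_univ _) h

/-- the right column -/
noncomputable def q1 : Matrix κ ((κ × Fin 2) ⊕ (κ × Fin 2)) (MonoidAlgebra ℤ G) := fun i x =>
  Sum.elim (fun x => mR i x) (fun _ => 0) x

noncomputable def s1 : Matrix ((κ × Fin 2) ⊕ (κ × Fin 2)) κ (MonoidAlgebra ℤ G) := fun x i =>
  Sum.elim (fun _ => 0) (fun x => -mC x i) x

/-- the edges of the split matrix -/
abbrev E1 (κ E : Type) := ((κ × Fin 2) ⊕ (κ × Fin 2)) ⊕ (E ⊕ ((κ × Fin 2) ⊕ (κ × Fin 2)))

abbrev K1 (κ : Type) := κ ⊕ ((κ × Fin 2) ⊕ (κ × Fin 2))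

def sE : E1 κ E → K1 κ
  | Sum.inl (Sum.inl x) => Sum.inl x.1
  | Sum.inl (Sum.inr x) => Sum.inr (Sum.inl x)
  | Sum.inr (Sum.inl e) => Sum.inr (Sum.inl (s e, α e))
  | Sum.inr (Sum.inr (Sum.inl x)) => Sum.inr (Sum.inr x)
  | Sum.inr (Sum.inr (Sum.inr x)) => Sum.inr (Sum.inr x)

def tE : E1 κ E → K1 κ
  | Sum.inl (Sum.inl x) => Sum.inr (Sum.inl x)
  | Sum.inl (Sum.inr x) => Sum.inr (Sum.inl x)
  | Sum.inr (Sum.inl e) => Sum.inr (Sum.inr (t e, β e))
  | Sum.inr (Sum.inr (Sum.inl x)) => Sum.inr (Sum.inr x)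
  | Sum.inr (Sum.inr (Sum.inr x)) => Sum.inl x.1

noncomputable def zE : E1 κ E → MonoidAlgebra ℤ G
  | Sum.inl _ => 1
  | Sum.inr (Sum.inl e) => -z e
  | Sum.inr (Sum.inr (Sum.inl _)) => 1
  | Sum.inr (Sum.inr (Sum.inr _)) => -1

theorem mono_zE (hz : ∀ e, Mono (z e)) (e : E1 κ E) : Mono (zE z e) := by
  rcases e with (x | x) | (e | (x | x))
  · exact mono_one
  · exact mono_one
  · exact mono_neg (hz e)
  · exact mono_one
  · exact mono_neg mono_one

/-- the split matrix -/
noncomputable def Z1 : Matrix (K1 κ) (K1 κ) (MonoidAlgebra ℤ G) :=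
  fromBlocks 0 q1 s1 (fromBlocks 1 (-mid s t z α β) 0 1)

theorem Z1_isSum : IsSum (sE s α) (tE t β) (zE z) (Z1 s t z α β) := by
  unfold IsSum
  rw [Fintype.sum_sum_type, Fintype.sum_sum_type, Fintype.sum_sum_type, Fintype.sum_sum_type]
  have hneg : ∑ e : E, Matrix.single (sE s α (Sum.inr (Sum.inl e))) (tE t β (Sum.inr (Sum.inl e)))
      (zE (κ := κ) z (Sum.inr (Sum.inl e)))
      = fromBlocks 0 0 0 (fromBlocks 0 (-mid s t z α β) 0 0) := by
    unfold mid
    ext1 i j
    rw [Matrix.sum_apply]
    rcases i with i | (x | x) <;> rcases j with j | (y | y) <;>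
      simp only [fromBlocks_apply₁₁, fromBlocks_apply₁₂, fromBlocks_apply₂₁, fromBlocks_apply₂₂,
        Matrix.neg_apply, Matrix.sum_apply, Matrix.zero_apply]
    · exact Finset.sum_eq_zero fun e _ => by simp [sE, tE, Matrix.single_apply]
    · exact Finset.sum_eq_zero fun e _ => by simp [sE, tE, Matrix.single_apply]
    · exact Finset.sum_eq_zero fun e _ => by simp [sE, tE, Matrix.single_apply]
    · exact Finset.sum_eq_zero fun e _ => by simp [sE, tE, Matrix.single_apply]
    · exact Finset.sum_eq_zero fun e _ => by simp [sE, tE, Matrix.single_apply]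
    · rw [← Finset.sum_neg_distrib]
      refine Finset.sum_congr rfl fun e _ => ?_
      simp only [sE, tE, zE, Matrix.single_apply, Sum.inr.injEq, Sum.inl.injEq]
      split_ifs <;> simp
    · exact Finset.sum_eq_zero fun e _ => by simp [sE, tE, Matrix.single_apply]
    · exact Finset.sum_eq_zero fun e _ => by simp [sE, tE, Matrix.single_apply]
    · exact Finset.sum_eq_zero fun e _ => by simp [sE, tE, Matrix.single_apply]
  rw [hneg]
  ext1 i j
  simp only [Matrix.add_apply, Matrix.sum_apply]
  rcases i with i | (x | x) <;> rcases j with j | (y | y) <;>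
    simp only [sE, tE, zE, Matrix.single_apply, Z1, q1, s1, mR, mC, fromBlocks_apply₁₁,
      fromBlocks_apply₁₂, fromBlocks_apply₂₁, fromBlocks_apply₂₂, Matrix.zero_apply, Sum.elim_inl,
      Sum.elim_inr, Sum.inl.injEq, Sum.inr.injEq, reduceCtorEq, false_and, and_false, if_false,
      Finset.sum_const_zero, add_zero, zero_add, Matrix.one_apply]
  · rw [Finset.sum_eq_single y]
    · simp
    · intro b _ hb
      simp [hb]
    · intro h; exact absurd (Finset.mem_univ _) h
  · by_cases h : x = y
    · subst h; simp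
    · rw [if_neg h, Finset.sum_eq_zero]
      intro b _
      rw [if_neg]
      rintro ⟨rfl, h2⟩
      exact h h2
  · rw [Finset.sum_eq_single x]
    · by_cases h : x.1 = j <;> simp [h]
    · intro b _ hb
      simp [hb]
    · intro h; exact absurd (Finset.mem_univ _) h
  · by_cases h : x = y
    · subst h; simp
    · rw [if_neg h, Finset.sum_eq_zero]
      intro b _
      rw [if_neg]
      rintro ⟨rfl, h2⟩
      exact h h2

theorem card_sE (h : ∀ i a, (Finset.univ.filter fun e => s e = i ∧ α e = a).card ≤ 2)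
    (i : K1 κ) : (Finset.univ.filter fun e => sE (E := E) s α e = i).card ≤ 3 := by
  rw [Finset.card_filter]
  simp only [Fintype.sum_sum_type]
  rcases i with i | (x | x)
  · simp only [sE, Sum.inl.injEq, reduceCtorEq, if_false, Finset.sum_const_zero, add_zero]
    rw [Fintype.sum_prod_type, Finset.sum_comm]
    simp
  · obtain ⟨i, a⟩ := x
    have h1 := h i a
    simp only [sE, Sum.inr.injEq, Sum.inl.injEq, reduceCtorEq, if_false, Finset.sum_const_zero,
      add_zero, zero_add, Prod.mk.injEq]
    rw [Finset.card_filter] at h1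
    have h2 : ∑ x : κ × Fin 2, (if x = (i, a) then 1 else 0) = 1 := by simp
    rw [h2]
    omega
  · simp only [sE, Sum.inr.injEq, reduceCtorEq, if_false, Finset.sum_const_zero, zero_add]
    simp

theorem card_tE (h : ∀ i a, (Finset.univ.filter fun e => t e = i ∧ β e = a).card ≤ 2)
    (i : K1 κ) : (Finset.univ.filter fun e => tE (E := E) t β e = i).card ≤ 3 := by
  rw [Finset.card_filter]
  simp only [Fintype.sum_sum_type]
  rcases i with i | (x | x)
  · simp only [tE, Sum.inl.injEq, reduceCtorEq, if_false, Finset.sum_const_zero, zero_add]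
    rw [Fintype.sum_prod_type, Finset.sum_comm]
    simp
  · simp only [tE, Sum.inr.injEq, Sum.inl.injEq, reduceCtorEq, if_false, Finset.sum_const_zero,
      add_zero]
    simp
  · obtain ⟨i, a⟩ := x
    have h1 := h i a
    simp only [tE, Sum.inr.injEq, reduceCtorEq, if_false, Finset.sum_const_zero,
      add_zero, zero_add, Prod.mk.injEq]
    rw [Finset.card_filter] at h1
    have h2 : ∑ x : κ × Fin 2, (if x = (i, a) then 1 else 0) = 1 := by simp
    rw [h2]
    omega

end

end Pool.Agent.Q181.LW
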