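import Pool.Agent.Q181.LW.Sub

set_option autoImplicit false
set_option linter.unusedSectionVars false

/-! The norm of a subdivided matrix and of its inverse. -/

namespace Pool.Agent.Q181.LW

open Matrix TH57.Thr

variable {G : Type} [Group G] {κ E : Type} [Fintype κ] [DecidableEq κ] [Fintype E] [DecidableEq E]
  (s t : E → κ) (z : E → MonoidAlgebra ℤ G) (L : ℕ)

/-- the subdivided matrix -/
noncomputable def Zs : Matrix (κ ⊕ (E × Fin L)) (κ ⊕ (E × Fin L)) (MonoidAlgebra ℤ G) :=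
  fromBlocks 0 (Qs s z L) (Ss t L) (Us L)

theorem mono_Zs (hz : ∀ e, Mono (z e)) (x y : κ ⊕ (E × Fin L)) : Mono (Zs s t z L x y) := by
  rcases x with i | x <;> rcases y with j | y
  · exact mono_zero
  · change Mono (Qs s z L i y)
    unfold Qs
    split_ifs
    · exact hz _
    · exact mono_zero
  · change Mono (Ss t L x j)
    unfold Ss
    split_ifs
    · exact mono_neg mono_one
    · exact mono_zero
  · change Mono (Us L x y)
    unfold Us
    split_ifs
    · exact mono_one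
    · exact mono_neg mono_one
    · exact mono_zero
    · exact mono_zero

/-- the absolute values -/
def mm : κ ⊕ (E × Fin L) → κ ⊕ (E × Fin L) → ℝ
  | Sum.inl _, Sum.inl _ => 0
  | Sum.inl i, Sum.inr x => if s x.1 = i ∧ (x.2 : ℕ) = 0 then 1 else 0
  | Sum.inr x, Sum.inl j => if t x.1 = j ∧ (x.2 : ℕ) + 1 = L then 1 else 0
  | Sum.inr x, Sum.inr y =>
    if x.1 = y.1 then (if x.2 = y.2 then 1 else if (x.2 : ℕ) + 1 = y.2 then 1 else 0) else 0

theorem mm_nonneg (x y : κ ⊕ (E × Fin L)) : 0 ≤ mm s t L x y := by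
  rcases x with i | x <;> rcases y with j | y <;> simp only [mm] <;>
    (try split_ifs) <;> norm_num

theorem mm_one (x y : κ ⊕ (E × Fin L)) (h : Zs s t z L x y ≠ 0) : 1 ≤ mm s t L x y := by
  rcases x with i | x <;> rcases y with j | y
  · exact absurd rfl h
  · change Qs s z L i y ≠ 0 at h
    unfold Qs at h
    simp only [mm]
    split_ifs at h ⊢ with h1
    · exact le_rfl
    · exact absurd rfl h
  · change Ss t L x j ≠ 0 at h
    unfold Ss at h
    simp only [mm]
    split_ifs at h ⊢ with h1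
    · exact le_rfl
    · exact absurd rfl h
  · change Us L x y ≠ 0 at h
    unfold Us at h
    simp only [mm]
    split_ifs at h ⊢ with h1 h2 h3
    · exact le_rfl
    · exact le_rfl
    · exact absurd rfl h
    · exact absurd rfl h

/-- the weights of the columns -/
noncomputable def fc (θ : ℝ) : κ ⊕ (E × Fin L) → ℝ
  | Sum.inl _ => 1
  | Sum.inr x => θ ^ (2 * (x.2 : ℕ) + 1) + θ ^ (2 * (L - x.2))

/-- the weights of the rows -/
noncomputable def fr (θ : ℝ) : κ ⊕ (E × Fin L) → ℝ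
  | Sum.inl _ => 1
  | Sum.inr x => θ ^ (2 * (x.2 : ℕ) + 2) + θ ^ (2 * (L - x.2) - 1)

variable {θ : ℝ} (hθ0 : 0 < θ) (hθ : θ ^ 2 = 1 / 2) (hL : 1 ≤ L)
  (hs : ∀ i, ((Finset.univ.filter fun e => s e = i).card : ℝ) ≤ 3)
  (ht : ∀ i, ((Finset.univ.filter fun e => t e = i).card : ℝ) ≤ 3)

include hθ0 in
theorem fc_pos (x : κ ⊕ (E × Fin L)) : 0 < fc L θ x := by
  rcases x with i | x
  · exact one_pos
  · simp only [fc]; positivity

include hθ0 in
theorem fr_pos (x : κ ⊕ (E × Fin L)) : 0 < fr L θ x := by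
  rcases x with i | x
  · exact one_pos
  · simp only [fr]; positivity

include hθ in
theorem step1 (a : ℕ) : θ ^ (a + 1) + θ ^ (a + 3) = 3 * θ * θ ^ (a + 2) := by
  have h1 : θ ^ (a + 1) = 2 * θ ^ 2 * θ ^ (a + 1) := by rw [hθ]; ring
  rw [h1]
  ring

include hθ0 hθ hL hs in
theorem row_le (x : κ ⊕ (E × Fin L)) :
    ∑ y, mm s t L x y * fc L θ y ≤ (3 * θ + 3 * (1 / 2) ^ L) * fr L θ x := by
  have hpL : (0 : ℝ) < (1 / 2) ^ L := by positivity
  rw [Fintype.sum_sum_type]
  rcases x with i | x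
  · simp only [mm, fr, fc, Finset.sum_const_zero, zero_add, mul_one]
    rw [Fintype.sum_prod_type]
    have h1 : ∀ e : E, ∑ k : Fin L, (if s e = i ∧ (k : ℕ) = 0 then (1 : ℝ) else 0)
        * (θ ^ (2 * (k : ℕ) + 1) + θ ^ (2 * (L - k)))
        = (if s e = i then 1 else 0) * (θ + (1 / 2) ^ L) := by
      intro e
      rw [Finset.sum_eq_single ⟨0, hL⟩]
      · simp only [and_true, mul_zero, zero_add, pow_one, Nat.sub_zero]
        rw [pow_mul, hθ]
      · intro k _ hk
        rw [if_neg, zero_mul]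
        rintro ⟨-, h⟩
        exact hk (Fin.ext h)
      · intro h; exact absurd (Finset.mem_univ _) h
    simp only [h1]
    rw [← Finset.sum_mul, ← Finset.sum_filter, Finset.sum_const, nsmul_eq_mul, mul_one]
    have h2 := hs i
    have h3 : 0 ≤ θ + (1 / 2) ^ L := by positivity
    nlinarith
  · have h1 : ∑ y : E × Fin L, mm s t L (Sum.inr x) (Sum.inr y) * fc (κ := κ) L θ (Sum.inr y)
        = ∑ y : E × Fin L, (if x.1 = y.1 then (if x.2 = y.2 then fc (κ := κ) L θ (Sum.inr y) else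
          if (x.2 : ℕ) + 1 = y.2 then fc (κ := κ) L θ (Sum.inr y) else 0) else 0) := by
      refine Finset.sum_congr rfl fun y _ => ?_
      simp only [mm]
      split_ifs <;> simp
    have h2 : ∑ j : κ, mm s t L (Sum.inr x) (Sum.inl j) * fc (E := E) L θ (Sum.inl j)
        = if (x.2 : ℕ) + 1 = L then 1 else 0 := by
      simp only [mm, fc, mul_one]
      split_ifs with h
      · simp [h]
      · simp [h]
    rw [h1, h2, sum_right x (fun y => fc (κ := κ) L θ (Sum.inr y))
      (fun y => fc (κ := κ) L θ (Sum.inr y))]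
    obtain ⟨e, k⟩ := x
    have hk := k.2
    have hmono : 3 * θ * fr (κ := κ) L θ (Sum.inr (e, k))
        ≤ (3 * θ + 3 * (1 / 2) ^ L) * fr (κ := κ) L θ (Sum.inr (e, k)) := by
      have := fr_pos (κ := κ) (E := E) L hθ0 (Sum.inr (e, k))
      nlinarith
    refine le_trans ?_ hmono
    simp only [fc, fr]
    obtain ⟨m, hm⟩ : ∃ m, L = k + 1 + m := ⟨L - (k + 1), by omega⟩
    have e1 : 2 * (L - (k : ℕ)) = 2 * m + 2 := by omega
    have e2 : 2 * (L - (k : ℕ)) - 1 = 2 * m + 1 := by omega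
    rw [e2, e1]
    have s1 := step1 hθ (2 * (k : ℕ))
    rcases Nat.eq_zero_or_pos m with hm0 | hm0
    · subst hm0
      rw [if_pos (by omega), dif_neg (by omega)]
      norm_num
      have h5 : 0 < θ ^ (2 * (k : ℕ) + 3) := by positivity
      have h6 : θ ^ (2 * 0 + 1) = θ := by norm_num
      nlinarith
    · rw [if_neg (by omega), dif_pos (by omega)]
      have e3 : 2 * (L - ((k : ℕ) + 1)) = 2 * m := by omega
      obtain ⟨j, rfl⟩ : ∃ j, m = j + 1 := ⟨m - 1, by omega⟩
      have s2 := step1 hθ (2 * j + 1)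
      have e4 : 2 * (L - ((k : ℕ) + 1)) = 2 * j + 2 := by omega
      have e5 : 2 * ((k : ℕ) + 1) + 1 = 2 * (k : ℕ) + 3 := by ring
      have e6 : 2 * (j + 1) + 2 = 2 * j + 1 + 3 := by ring
      have e7 : 2 * (j + 1) + 1 = 2 * j + 1 + 2 := by ring
      have e8 : 2 * j + 1 + 1 = 2 * j + 2 := by ring
      simp only [e4, e5, e6, e7]
      rw [e8] at s2
      linarith

include hθ0 hθ hL ht in
theorem col_le (y : κ ⊕ (E × Fin L)) :
    ∑ x, mm s t L x y * fr L θ x ≤ (3 * θ + 3 * (1 / 2) ^ L) * fc L θ y := by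
  have hpL : (0 : ℝ) < (1 / 2) ^ L := by positivity
  rw [Fintype.sum_sum_type]
  rcases y with i | x
  · simp only [mm, fr, fc, Finset.sum_const_zero, zero_add, mul_one]
    rw [Fintype.sum_prod_type]
    have h1 : ∀ e : E, ∑ k : Fin L, (if t e = i ∧ (k : ℕ) + 1 = L then (1 : ℝ) else 0)
        * (θ ^ (2 * (k : ℕ) + 2) + θ ^ (2 * (L - k) - 1))
        = (if t e = i then 1 else 0) * (θ + (1 / 2) ^ L) := by
      intro e
      rw [Finset.sum_eq_single ⟨L - 1, by omega⟩]
      · have e0 : L - 1 + 1 = L := by omega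
        have e1 : 2 * (L - 1) + 2 = 2 * L := by omega
        have e2 : 2 * (L - (L - 1)) - 1 = 1 := by omega
        simp only [e0, and_true, e1, e2, pow_one]
        rw [pow_mul, hθ, add_comm ((1 / 2 : ℝ) ^ L)]
      · intro k _ hk
        rw [if_neg, zero_mul]
        rintro ⟨-, h⟩
        apply hk
        apply Fin.ext
        simp only
        omega
      · intro h; exact absurd (Finset.mem_univ _) h
    simp only [h1]
    rw [← Finset.sum_mul, ← Finset.sum_filter, Finset.sum_const, nsmul_eq_mul, mul_one]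
    have h2 := ht i
    have h3 : 0 ≤ θ + (1 / 2) ^ L := by positivity
    nlinarith
  · have h1 : ∑ y : E × Fin L, mm s t L (Sum.inr y) (Sum.inr x) * fr (κ := κ) L θ (Sum.inr y)
        = ∑ y : E × Fin L, (if y.1 = x.1 then (if y.2 = x.2 then fr (κ := κ) L θ (Sum.inr y) else
          if (y.2 : ℕ) + 1 = x.2 then fr (κ := κ) L θ (Sum.inr y) else 0) else 0) := by
      refine Finset.sum_congr rfl fun y _ => ?_
      simp only [mm]
      split_ifs <;> simp
    have h2 : ∑ j : κ, mm s t L (Sum.inl j) (Sum.inr x) * fr (E := E) L θ (Sum.inl j)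
        = if (x.2 : ℕ) = 0 then 1 else 0 := by
      simp only [mm, fr, mul_one]
      split_ifs with h
      · simp [h]
      · simp [h]
    rw [h1, h2, sum_left x (fun y => fr (κ := κ) L θ (Sum.inr y))
      (fun y => fr (κ := κ) L θ (Sum.inr y))]
    obtain ⟨e, k⟩ := x
    have hk := k.2
    have hmono : 3 * θ * fc (κ := κ) L θ (Sum.inr (e, k))
        ≤ (3 * θ + 3 * (1 / 2) ^ L) * fc (κ := κ) L θ (Sum.inr (e, k)) := by
      have := fc_pos (κ := κ) (E := E) L hθ0 (Sum.inr (e, k))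
      nlinarith
    refine le_trans ?_ hmono
    simp only [fc, fr]
    obtain ⟨m, hm⟩ : ∃ m, L = k + 1 + m := ⟨L - (k + 1), by omega⟩
    have e1 : 2 * (L - (k : ℕ)) = 2 * m + 2 := by omega
    have e2 : 2 * (L - (k : ℕ)) - 1 = 2 * m + 1 := by omega
    rw [e2, e1]
    have s1 := step1 hθ (2 * m)
    rcases Nat.eq_zero_or_pos (k : ℕ) with hk0 | hk0
    · rw [if_pos hk0, dif_neg (by omega), hk0]
      norm_num
      have h5 : 0 < θ ^ (2 * m + 3) := by positivity
      nlinarith
    · rw [if_neg (by omega), dif_pos (by omega)]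
      obtain ⟨j, hj⟩ : ∃ j, (k : ℕ) = j + 1 := ⟨k - 1, by omega⟩
      have s2 := step1 hθ (2 * j + 1)
      have e4 : 2 * (L - ((k : ℕ) - 1)) - 1 = 2 * m + 3 := by omega
      have e5 : 2 * ((k : ℕ) - 1) + 2 = 2 * j + 1 + 1 := by omega
      have e6 : 2 * (k : ℕ) + 2 = 2 * j + 1 + 3 := by omega
      have e7 : 2 * (k : ℕ) + 1 = 2 * j + 1 + 2 := by omega
      simp only [e4, e5, e6, e7]
      linarith

include hθ0 hθ hL hs ht in
/-- **The norm of the subdivided matrix.** -/
theorem norm_Zs (hz : ∀ e, Mono (z e)) :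
    NormLE (Zs s t z L) (3 * θ + 3 * (1 / 2) ^ L) := by
  have h := schur_test (Zs s t z L) (mono_Zs s t z L hz) (mm s t L) (mm_one s t z L)
    (mm_nonneg s t L) (fr L θ) (fc L θ) (fr_pos L hθ0) (3 * θ + 3 * (1 / 2) ^ L)
    (3 * θ + 3 * (1 / 2) ^ L) (by positivity) (by positivity) (fun j => (fc_pos L hθ0 j).le)
    (row_le s t L hθ0 hθ hL hs) (col_le s t L hθ0 hθ hL ht)
  intro x
  rw [sq]
  exact h x

end Pool.Agent.Q181.LW
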