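import Pool.Agent.Q181.LW.Spl
import Pool.Agent.Q181.LW.Base

set_option autoImplicit false
set_option linter.unusedSectionVars false

/-! Every class of `K₁` has representatives of norm close to `3 / √2` with small inverse and of
small size. -/

namespace Pool.Agent.Q181.LW

open Matrix TH57.Thr

variable {G : Type} [Group G]

theorem stepOne {κ E : Type} [Fintype κ] [DecidableEq κ] [Fintype E] [DecidableEq E]
    (s t : E → κ) (z : E → MonoidAlgebra ℤ G) (α β : E → Fin 2)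
    (B : (Matrix κ κ (MonoidAlgebra ℤ G))ˣ) (hB : IsSum s t z B.val)
    (hcard : 1 ≤ Fintype.card κ) :
    ∃ B1 : (Matrix (K1 κ) (K1 κ) (MonoidAlgebra ℤ G))ˣ, B1.val = Z1 s t z α β ∧ RepG B B1 := by
  refine dilate B q1 s1 (fromBlocks 1 (-mid s t z α β) 0 1) (fromBlocks 1 (mid s t z α β) 0 1)
    (Sum.elim (fun _ => 0) (fun _ => 1)) ?_ ?_ ?_ ?_ ?_
  · rintro (x | x) <;> simp
  · rintro (x | x) (y | y) hxy h
    · exfalso
      apply h
      rw [fromBlocks_apply₁₁]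
      exact Matrix.one_apply_ne fun h2 => hxy (by rw [h2])
    · simp
    · simp at h
    · exfalso
      apply h
      rw [fromBlocks_apply₂₂]
      exact Matrix.one_apply_ne fun h2 => hxy (by rw [h2])
  · rw [fromBlocks_multiply]
    simp
  · set P : Matrix κ (κ × Fin 2) (MonoidAlgebra ℤ G) :=
      (mR : Matrix κ (κ × Fin 2) (MonoidAlgebra ℤ G)) * mid s t z α β with hP
    have h1 : (q1 : Matrix κ ((κ × Fin 2) ⊕ (κ × Fin 2)) (MonoidAlgebra ℤ G))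
        * (fromBlocks 1 (mid s t z α β) 0 1 :
          Matrix ((κ × Fin 2) ⊕ (κ × Fin 2)) ((κ × Fin 2) ⊕ (κ × Fin 2)) (MonoidAlgebra ℤ G))
        = Matrix.of (fun i x => Sum.elim (fun x => mR i x) (fun x => P i x) x) := by
      ext1 i x
      rw [Matrix.mul_apply, Fintype.sum_sum_type]
      rcases x with x | x
      · simp only [q1, Sum.elim_inl, Sum.elim_inr, fromBlocks_apply₁₁, fromBlocks_apply₂₁,
          Matrix.zero_apply, mul_zero, Finset.sum_const_zero, add_zero, Matrix.of_apply]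
        rw [← Matrix.mul_apply, Matrix.mul_one]
      · simp only [q1, Sum.elim_inl, Sum.elim_inr, fromBlocks_apply₁₂, zero_mul,
          Finset.sum_const_zero, add_zero, Matrix.of_apply]
        rw [← Matrix.mul_apply]
    have h2 : B.val = P * (mC : Matrix (κ × Fin 2) κ (MonoidAlgebra ℤ G)) := by
      rw [hP, mR_mid_mC s t z α β]; exact hB
    rw [h1, h2]
    ext1 i j
    rw [Matrix.neg_apply, Matrix.mul_apply, Matrix.mul_apply, Fintype.sum_sum_type]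
    simp only [s1, Sum.elim_inl, Sum.elim_inr, mul_zero, Finset.sum_const_zero, zero_add, mul_neg,
      Finset.sum_neg_distrib, neg_neg, Matrix.of_apply]
  · simp only [Fintype.card_sum, Fintype.card_prod, Fintype.card_fin]
    omega

theorem stepTwo {κ E : Type} [Fintype κ] [DecidableEq κ] [Fintype E] [DecidableEq E]
    (s t : E → κ) (z : E → MonoidAlgebra ℤ G) (L : ℕ) (hL : 1 ≤ L)
    (B : (Matrix κ κ (MonoidAlgebra ℤ G))ˣ) (hB : IsSum s t z B.val)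
    (hcard : 3 ≤ Fintype.card κ) :
    ∃ B1 : (Matrix (κ ⊕ (E × Fin L)) (κ ⊕ (E × Fin L)) (MonoidAlgebra ℤ G))ˣ,
      B1.val = Zs s t z L ∧ RepG B B1 := by
  refine dilate B (Qs s z L) (Ss t L) (Us L) (Vs L) (fun x => (x.2 : ℕ)) ?_
    (fun x y hxy h => Us_tri L x y hxy h) (VsUs L) (QVS s t z L hL B.val hB) ?_
  · intro x
    unfold Us
    simp
  · rw [Fintype.card_sum]
    omega

theorem norm_re {κ μ : Type} [Fintype κ] [DecidableEq κ] [Fintype μ] [DecidableEq μ] (e : μ ≃ κ)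
    (B : (Matrix κ κ (MonoidAlgebra ℤ G))ˣ) (c d : ℝ) (h1 : NormLE B.val c)
    (h2 : NormLE B⁻¹.val d) : NormLE (Units.map (re e) B).val c ∧
      NormLE (Units.map (re e) B)⁻¹.val d := by
  refine ⟨NormLE_re e _ c h1, ?_⟩
  rw [← map_inv]
  exact NormLE_re e _ d h2

theorem upper_core {κ X E : Type} [Fintype κ] [DecidableEq κ] [Fintype X] [DecidableEq X]
    [Fintype E] [DecidableEq E] (B : (Matrix κ κ (MonoidAlgebra ℤ G))ˣ)
    (B₁ : (Matrix (κ ⊕ X) (κ ⊕ X) (MonoidAlgebra ℤ G))ˣ) (hR1 : RepG B B₁)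
    (s t : E → κ ⊕ X) (z : E → MonoidAlgebra ℤ G) (hz : ∀ e, Mono (z e))
    (hsum1 : IsSum s t z B₁.val)
    (hs1 : ∀ i, ((Finset.univ.filter fun e => s e = i).card : ℝ) ≤ 3)
    (ht1 : ∀ i, ((Finset.univ.filter fun e => t e = i).card : ℝ) ≤ 3)
    (hcard : 3 ≤ Fintype.card (κ ⊕ X)) (θ : ℝ) (hθ0 : 0 < θ) (hθ : θ ^ 2 = 1 / 2) :
    ∃ C : ℕ, ∀ L : ℕ, 1 ≤ L → ∃ (m : ℕ)
      (B₂ : (Matrix (κ ⊕ Fin m) (κ ⊕ Fin m) (MonoidAlgebra ℤ G))ˣ),
      RepG B B₂ ∧ m ≤ C * L ∧ NormLE B₂.val (3 * θ + 3 * (1 / 2) ^ L) ∧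
        NormLE B₂⁻¹.val (C * L) := by
  classical
  obtain ⟨M, hM, hMi⟩ := exists_NormLE B₁⁻¹.val
  have hLB1 : LB B₁.val M := by
    have := LB_of_inv B₁.val B₁⁻¹.val B₁.mul_inv _ hMi
    rwa [Real.sq_sqrt (Nat.cast_nonneg _)] at this
  refine ⟨Fintype.card X + Fintype.card E + (42 * M + 2), fun L hL => ?_⟩
  obtain ⟨B₂, hB2, hR2⟩ := stepTwo s t z L hL B₁ hsum1 hcard
  have hN2 : NormLE B₂.val (3 * θ + 3 * (1 / 2) ^ L) := by
    rw [hB2]
    exact norm_Zs _ _ _ L hθ0 hθ hL hs1 ht1 hz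
  have hLB2 : LB B₂.val ((42 * M + 2) * L ^ 2) := by
    rw [hB2]
    exact LB_Zs _ _ _ L hL hs1 ht1 hz B₁.val hsum1 M (Nat.cast_nonneg _) hLB1
  have hi2 : NormLE B₂⁻¹.val ((Fintype.card X + Fintype.card E + (42 * M + 2) : ℕ) * L) := by
    refine normLE_of_LB B₂.val B₂⁻¹.val B₂.inv_mul _ _ ?_ hLB2
    rw [mul_pow]
    refine mul_le_mul_of_nonneg_right ?_ (by positivity)
    have h3 : (0 : ℝ) ≤ M := Nat.cast_nonneg _
    have h4 : (0 : ℝ) ≤ Fintype.card X := Nat.cast_nonneg _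
    have h5 : (0 : ℝ) ≤ Fintype.card E := Nat.cast_nonneg _
    push_cast
    nlinarith
  have hn3 := norm_re (Equiv.sumAssoc κ X (E × Fin L)).symm B₂ _ _ hN2 hi2
  have hR3 := repG_trans B B₁ B₂ hR1 hR2
  let e : Fin (Fintype.card (X ⊕ (E × Fin L))) ≃ X ⊕ (E × Fin L) := (Fintype.equivFin _).symm
  have hR5 := repG_re B _ e hR3
  have hn5 := norm_re (Equiv.sumCongr (Equiv.refl κ) e) _ _ _ hn3.1 hn3.2
  refine ⟨_, _, hR5, ?_, hn5.1, hn5.2⟩
  rw [Fintype.card_sum, Fintype.card_prod, Fintype.card_fin]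
  nlinarith [Nat.zero_le (Fintype.card X)]

theorem upper_gen {κ : Type} [Fintype κ] [DecidableEq κ]
    (B : (Matrix κ κ (MonoidAlgebra ℤ G))ˣ) (hN : NormLE B.val (107 / 50))
    (hcard : 1 ≤ Fintype.card κ) (θ : ℝ) (hθ0 : 0 < θ) (hθ : θ ^ 2 = 1 / 2) :
    ∃ C : ℕ, ∀ L : ℕ, 1 ≤ L → ∃ (m : ℕ)
      (B₂ : (Matrix (κ ⊕ Fin m) (κ ⊕ Fin m) (MonoidAlgebra ℤ G))ˣ),
      RepG B B₂ ∧ m ≤ C * L ∧ NormLE B₂.val (3 * θ + 3 * (1 / 2) ^ L) ∧
        NormLE B₂⁻¹.val (C * L) := by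
  classical
  obtain ⟨α, hα⟩ := halve (Ed.s B.val)
    (fun i => Ed.card_s _ i (row_four _ _ hN (by norm_num) i))
  obtain ⟨β, hβ⟩ := halve (Ed.t B.val)
    (fun i => Ed.card_t _ i (col_four _ _ (by norm_num) hN (by norm_num) i))
  obtain ⟨B₁, hB1, hR1⟩ := stepOne (Ed.s B.val) (Ed.t B.val) (Ed.z B.val) α β B
    (Ed.isSum _) hcard
  have hsum1 : IsSum (sE (Ed.s B.val) α) (tE (Ed.t B.val) β) (zE (Ed.z B.val)) B₁.val := by
    rw [hB1]; exact Z1_isSum _ _ _ _ _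
  exact upper_core B B₁ hR1 _ _ _ (mono_zE _ (Ed.mono _)) hsum1
    (fun i => by exact_mod_cast card_sE (Ed.s B.val) α (fun i a => by convert hα i a) i)
    (fun i => by exact_mod_cast card_tE (Ed.t B.val) β (fun i a => by convert hβ i a) i)
    (by
      simp only [Fintype.card_sum, Fintype.card_prod, Fintype.card_fin]
      omega) θ hθ0 hθ

/-- **The upper bound.** -/
theorem upper (n : ℕ) (A : (Matrix (Fin n) (Fin n) (MonoidAlgebra ℤ G))ˣ) (θ : ℝ) (hθ0 : 0 < θ)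
    (hθ : θ ^ 2 = 1 / 2) :
    ∃ C : ℕ, ∀ L : ℕ, 1 ≤ L → ∃ (m : ℕ)
      (B : (Matrix (Fin n ⊕ Fin m) (Fin n ⊕ Fin m) (MonoidAlgebra ℤ G))ˣ),
      RepG A B ∧ m ≤ C * L ∧ NormLE B.val (3 * θ + 3 * (1 / 2) ^ L) ∧
        NormLE B⁻¹.val (C * L) := by
  obtain ⟨m₀, C₀, hC₀, hN⟩ := reduction_fin n A (107 / 50) (by norm_num)
  have hA0 : RepG A (Units.map (stm (Fin m₀)) A * C₀) := ⟨C₀, hC₀, rfl⟩
  rcases Nat.eq_zero_or_pos (Fintype.card (Fin n ⊕ Fin m₀)) with h0 | h0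
  · have hn : n = 0 := by
      rw [Fintype.card_sum, Fintype.card_fin, Fintype.card_fin] at h0
      omega
    subst hn
    have h1 : ∀ y : Fin 0 ⊕ Fin 0 → MonoidAlgebra ℝ G, normSq y = 0 := fun y => by
      rw [normSq_eq]; exact Finset.sum_eq_zero fun i _ => isEmptyElim i
    refine ⟨0, fun L _ => ⟨0, 1, ⟨1, one_mem _, ?_⟩, by simp, ?_, ?_⟩⟩
    · apply Units.ext
      ext1 i j
      exact isEmptyElim i
    · intro x
      rw [h1, h1, mul_zero]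
    · intro x
      rw [h1, h1, mul_zero]
  obtain ⟨C, hC⟩ := upper_gen (Units.map (stm (Fin m₀)) A * C₀) hN h0 θ hθ0 hθ
  refine ⟨m₀ + C, fun L hL => ?_⟩
  obtain ⟨m, B₂, hR, hm, hN2, hi2⟩ := hC L hL
  have hR4 := repG_trans A _ B₂ hA0 hR
  have hn4 := norm_re (Equiv.sumAssoc (Fin n) (Fin m₀) (Fin m)).symm B₂ _ _ hN2 hi2
  have hR5 := repG_re A _ (finSumFinEquiv (m := m₀) (n := m)).symm hR4
  have hn5 := norm_re (Equiv.sumCongr (Equiv.refl (Fin n))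
    (finSumFinEquiv (m := m₀) (n := m)).symm) _ _ _ hn4.1 hn4.2
  refine ⟨m₀ + m, _, hR5, by nlinarith, hn5.1, NormLE_mono (by positivity) ?_ hn5.2⟩
  refine mul_le_mul_of_nonneg_right ?_ (Nat.cast_nonneg _)
  exact_mod_cast Nat.le_add_left _ _

end Pool.Agent.Q181.LW
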